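import Pool.Agent.Helper87.MC.Goals

/-!
Project MCE (MP_d8224a_co, minimal complements): definitions for the lower bound
`T(G) ≥ |G|^(1/2 - o(1))` for all finite abelian groups.

`rr E w = #{x ∈ E : x + w ∈ E}` and `IsMC` are those of Pool/Agent/Helper87/MC/Goals.lean.
-/

namespace Pool.Agent.Helper26.MCE

open Finset Pool.Agent.Helper87.MC

variable {G : Type} [AddCommGroup G] [Fintype G]

open Classical in
/-- The union of the full `K`-cosets contained in `D`. -/
noncomputable def full (D : Finset G) (K : AddSubgroup G) : Finset G :=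
  D.filter (fun x => ∀ h ∈ K, x + h ∈ D)

open Classical in
/-- The fibre of `D` in the coset `x + K`. -/
noncomputable def fib (D : Finset G) (K : AddSubgroup G) (x : G) : Finset G :=
  D.filter (fun y => y - x ∈ K)

/-- `E` is a union of cosets of `P`. -/
def Per (E : Finset G) (P : AddSubgroup G) : Prop := ∀ x ∈ E, ∀ h ∈ P, x + h ∈ E

/-- The coset `x + K` is not contained in `D`. -/
def NF (D : Finset G) (K : AddSubgroup G) (x : G) : Prop := ∃ h ∈ K, x + h ∉ D

/-- `D` has no nontrivial period. -/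
def NoPer (D : Finset G) : Prop := ∀ P : AddSubgroup G, Per D P → P = ⊥

/-- Every `K`-fibre of `D` is full or has at most `δ |K|` elements. -/
def Clean (D : Finset G) (K : AddSubgroup G) (δ : ℝ) : Prop :=
  ∀ x : G, NF D K x → ((fib D K x).card : ℝ) ≤ δ * Nat.card K

open Classical in
/-- `T_μ,E(z) = ∑ μ(w) [z - w ∈ E]`. -/
noncomputable def TT (μ : G → ℝ) (E : Finset G) (z : G) : ℝ :=
  ∑ w : G, if z - w ∈ E then μ w else 0

open Classical in
/-- The mass of a subgroup. -/
noncomputable def mass (μ : G → ℝ) (Λ : AddSubgroup G) : ℝ :=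
  ∑ w : G, if w ∈ Λ then μ w else 0

/-- There is no persistent spoiling: no probability measure `μ` on `K \ K'`, supported on
`τ`-popular differences of `B`, such that every point outside `full D K'` lies in `w + full D K'` with
probability at most `ρ`. -/
def NoSp (D B : Finset G) (K K' : AddSubgroup G) (τ ρ : ℝ) : Prop :=
  ∀ μ : G → ℝ, (∀ w, 0 ≤ μ w) → ∑ w, μ w = 1 → (∀ w, μ w ≠ 0 → w ∈ K ∧ w ∉ K') →
    (∀ w, μ w ≠ 0 → (B.card : ℝ) ≤ τ * rr B w) →
    ¬ (∀ z, z ∉ full D K' → TT μ (full D K') z ≤ ρ)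

open Classical in
/-- `w` is popular for `(D, B)`: the translate `w + B` meets `D` in at least `|B| / t` points;
`pop D B K t` is the set of all `x` which are congruent mod `K` to a popular `w`. -/
noncomputable def pop (D B : Finset G) (K : AddSubgroup G) (t : ℝ) : Finset G :=
  univ.filter fun x => ∃ w : G, w - x ∈ K ∧
    (B.card : ℝ) ≤ t * ((B.filter fun b => w + b ∈ D).card : ℝ)

open Classical in
/-- The chain of subgroups `⊤ = K 0 > K 1 > ... > K s = ⊥` of the structure theorem. `f i` bounds the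
size of the non-full `K i`-fibres of `D`, `B i` is a union of full `K (i+1)`-cosets of `D` inside
non-full `K i`-fibres, the protective set of the level `i`. -/
structure Chain (D : Finset G) (s : ℕ) (K : ℕ → AddSubgroup G) (f : ℕ → ℕ) (B : ℕ → Finset G)
    (ρ ρh : ℕ → ℝ) (t L2 : ℝ) : Prop where
  K0 : K 0 = ⊤
  Ks : K s = ⊥
  anti : ∀ i < s, K (i + 1) ≤ K i
  f0 : f 0 = D.card
  fs : f s = 0
  fib_le : ∀ i ≤ s, ∀ x, NF D (K i) x → (fib D (K i) x).card ≤ f i
  fpos : ∀ i < s, 1 ≤ f i
  dens : ∀ i, 1 ≤ i → i < s → (f i : ℝ) ≤ ρ i * Nat.card (K i)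
  Bne : ∀ i < s, (B i).Nonempty
  Bsub : ∀ i < s, ∀ b ∈ B i, b ∈ full D (K (i + 1)) ∧ NF D (K i) b
  Bsat : ∀ i < s, ∀ b ∈ B i, ∀ y ∈ full D (K (i + 1)), y - b ∈ K i → y ∈ B i
  cnt : ∀ l i, l < i → i < s →
    (((pop D (B i) (K i) t).filter (fun x => x ∈ K l)).card : ℝ) * f i
      ≤ L2 * f l * Nat.card (K i)
  nosp : ∀ i < s, NoSp D (B i) (K i) (K (i + 1)) (2 * t) (ρh i)

open Classical in
/-- The labels of type `j`. -/
noncomputable def lab (D : Finset G) (K : ℕ → AddSubgroup G) (j : ℕ) : Finset G :=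
  full D (K (j + 1)) \ full D (K j)

/-! ### The random tree -/

open Classical in
/-- The forest of clusters. `V` are the leaves (hosts), `c i v` is a representative of the cluster of
`v` of the level `i` (for `i ≤ s`; one cluster for `i = 0`, single leaves for `i = s`), `ty v < s` is
the type of `v`; a leaf of type `j` is alone in its clusters of the levels `> j`. `f`, `N`
(`N i = |K i|`) and `ρ` are the numbers of the chain, `lam j` is the number of the labels of type
`j`. -/
structure Forest (s : ℕ) (V : Type) [Fintype V] (c : ℕ → V → V) (ty : V → ℕ) (f N : ℕ → ℕ)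
    (ρ : ℕ → ℝ) (m : ℕ) (lam : ℕ → ℕ) : Prop where
  c0 : ∀ v v', c 0 v = c 0 v'
  cs : ∀ v, c s v = v
  ref : ∀ i < s, ∀ v v', c (i + 1) v = c (i + 1) v' → c i v = c i v'
  tyl : ∀ v, ty v < s
  single : ∀ v i, ty v < i → i ≤ s → ∀ v', c i v' = c i v → v' = v
  up : ∀ v, ∀ i < s, ((univ.filter fun v' => c i v' = c i v).card : ℝ) * f i ≤ ρ i * N i ∨
    ∀ v', c i v' = c i v → c (i + 1) v' = c (i + 1) v
  low : ∀ v i, 1 ≤ i → i ≤ ty v →
    ρ i * N i ≤ 2 * ((univ.filter fun v' => c i v' = c i v).card : ℝ) * f i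
  many : ∀ v, 8 * m * (univ.filter fun v' => c 1 v' = c 1 v).card
    ≤ (univ.filter fun v' => ty v' = ty v).card
  enough : ∀ j < s, 2 * lam j ≤ (univ.filter fun v => ty v = j).card ∧
    1 ≤ (univ.filter fun v => ty v = j).card

open Classical in
/-- The probability space: the coordinate `(l, b)` runs through the subgroup `K l`. -/
noncomputable def Om (s : ℕ) (V : Type) [Fintype V] (K : ℕ → AddSubgroup G) :
    Finset (Fin s × V → G) :=
  Fintype.piFinset fun i => univ.filter fun x => x ∈ K i.1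

/-- The position of the leaf `v`: the coordinate `(l, b)` is the shift of the cluster `b` of the level
`l + 1` inside its cluster of the level `l`. -/
def pos {s : ℕ} {V : Type} (c : ℕ → V → V) (ω : Fin s × V → G) (v : V) : G :=
  ∑ l : Fin s, ω (l, c (l + 1) v)

/-- `x` is covered by the leaf `v`. -/
def Cov {s : ℕ} {V : Type} (D : Finset G) (c : ℕ → V → V) (ω : Fin s × V → G) (v : V) (x : G) :
    Prop := x - pos c ω v ∈ D

/-- The leaf `v` is spoiled at the level `i`: some `g` in the `K i`-coset of `v`, outside its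
`K (i+1)`-coset, is popular for `v` and `g + full D (K (i+1))` is covered. -/
def Spoil {s : ℕ} {V : Type} (D : Finset G) (K : ℕ → AddSubgroup G) (B : ℕ → Finset G) (t : ℝ)
    (c : ℕ → V → V) (i : ℕ) (ω : Fin s × V → G) (v : V) : Prop :=
  ∃ w : G, w ∈ K i ∧ w ∉ K (i + 1) ∧ ((B i).card : ℝ) ≤ 2 * t * rr (B i) w ∧
    ∀ z ∈ full D (K (i + 1)), ∃ v', Cov D c ω v' (pos c ω v + w + z)

/-- The leaf `v` is popular for a foreign cluster of the level `i`. -/
def Foreign {s : ℕ} {V : Type} (D : Finset G) (K : ℕ → AddSubgroup G) (B : ℕ → Finset G) (t : ℝ)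
    (c : ℕ → V → V) (ty : V → ℕ) (i : ℕ) (ω : Fin s × V → G) (v : V) : Prop :=
  ∃ v', i ≤ ty v' ∧ c i v' ≠ c i v ∧ pos c ω v' - pos c ω v ∈ pop D (B i) (K i) t

/-- The leaf `v` is deleted. -/
def Del {s : ℕ} {V : Type} (D : Finset G) (K : ℕ → AddSubgroup G) (B : ℕ → Finset G) (t : ℝ)
    (c : ℕ → V → V) (ty : V → ℕ) (ω : Fin s × V → G) (v : V) : Prop :=
  (∃ i ≤ ty v, Spoil D K B t c i ω v) ∨ ∃ i, 1 ≤ i ∧ i < s ∧ Foreign D K B t c ty i ω v

/-- The mark of the leaf `v` with the label `d` is covered by another leaf. -/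
def BadMark {s : ℕ} {V : Type} (D : Finset G) (c : ℕ → V → V) (ω : Fin s × V → G) (d : G) (v : V) :
    Prop := ∃ v', v' ≠ v ∧ Cov D c ω v' (pos c ω v + d)

open Classical in
/-- The number of points of `g + B` covered by the leaf `v`. -/
noncomputable def hit {s : ℕ} {V : Type} (D B : Finset G) (c : ℕ → V → V) (ω : Fin s × V → G)
    (g : G) (v : V) : ℕ := (B.filter fun b => Cov D c ω v (g + b)).card

open Classical in
/-- The own leaves which are left out: if the cluster of `v` of the level `i` is too large it has only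
one cluster of the level `i + 1`. -/
def Own {V : Type} [Fintype V] (c : ℕ → V → V) (f N : ℕ → ℕ) (ρ : ℕ → ℝ) (i : ℕ) (v v' : V) :
    Prop := c i v' = c i v ∧
  ρ i * N i < ((univ.filter fun v'' => c i v'' = c i v).card : ℝ) * f i

open Classical in
/-- Large deviation: `g` lies in the `K i`-coset of the leaf `v`, and the leaves which are not popular
for `g` (and not left out) cover more than half of `g + B i`. -/
def LD {s : ℕ} {V : Type} [Fintype V] (D : Finset G) (K : ℕ → AddSubgroup G) (B : ℕ → Finset G)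
    (t : ℝ) (c : ℕ → V → V) (f N : ℕ → ℕ) (ρ : ℕ → ℝ) (i : ℕ) (ω : Fin s × V → G) (v : V)
    (g : G) : Prop :=
  pos c ω v - g ∈ K i ∧
  (B i).card < 2 * ((B i).filter fun b => ∃ v', ¬ Own c f N ρ i v v' ∧
    t * (hit D (B i) c ω g v' : ℝ) ≤ (B i).card ∧ Cov D c ω v' (g + b)).card

open Classical in
/-- The good points of the probability space. -/
structure Good {s : ℕ} {V : Type} [Fintype V] (D : Finset G) (K : ℕ → AddSubgroup G)
    (B : ℕ → Finset G) (t : ℝ) (c : ℕ → V → V) (ty : V → ℕ) (f N : ℕ → ℕ) (ρ : ℕ → ℝ)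
    (ω : Fin s × V → G) : Prop where
  mem : ω ∈ Om s V K
  del : ∀ j < s, 8 * (univ.filter fun v => ty v = j ∧ Del D K B t c ty ω v).card
    ≤ (univ.filter fun v => ty v = j).card
  ld : ∀ i < s, ∀ v g, ¬ LD D K B t c f N ρ i ω v g
  mark : ∀ j < s, ∀ d ∈ lab D K j, 4 * (univ.filter fun v => ty v = j ∧ BadMark D c ω d v).card
    ≤ (univ.filter fun v => ty v = j).card

end Pool.Agent.Helper26.MCE
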