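import Pool.Agent.Helper26.MCE.GoalsC
import Pool.Agent.Helper87.MC.Final

/-!
Project MCE (MP_d8224a_co): the final statements from `G_QUO` and `G_NUM`.
-/

namespace Pool.Agent.Helper26.MCE

open Finset Pool.Agent.Helper87.MC

/-- `√n exp(-C (log n)^(2/3) (log log n)^(1/3))`. -/
noncomputable def low (C : ℝ) (n : ℕ) : ℝ :=
  Real.sqrt n * Real.exp (-C * Real.log n ^ ((2 : ℝ) / 3) *
    Real.log (Real.log n) ^ ((1 : ℝ) / 3))

theorem small_isMC (hQ : G_QUO) (hN : G_NUM) : ∃ C : ℝ, 0 < C ∧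
    ∀ (G : Type) [AddCommGroup G] [Fintype G] (S : Set G), 3 ≤ Fintype.card G → S.Nonempty →
      (S.ncard : ℝ) ≤ low C (Fintype.card G) → IsMC S := by
  classical
  obtain ⟨C, hC, h⟩ := hN
  refine ⟨C, hC, ?_⟩
  intro G _ _ S h3 hne hS
  have hpos : 1 ≤ S.ncard := (Set.ncard_pos (Set.toFinite S)).mpr hne
  obtain ⟨Q, r, h1, h2, h4, h5, h6⟩ := h (Fintype.card G) S.ncard h3 hpos hS
  set D : Finset G := univ.filter fun x => -x ∈ S with hD
  have hDS : {x : G | -x ∈ D} = S := by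
    ext x
    simp [hD]
  have hcard : D.card = S.ncard := by
    rw [← Set.ncard_coe_finset]
    have h7 : (D : Set G) = (fun x : G => -x) '' S := by
      ext x
      simp only [hD, coe_filter, mem_univ, true_and, Set.mem_ofPred_eq, Set.mem_image]
      constructor
      · intro hx
        exact ⟨-x, hx, neg_neg x⟩
      · rintro ⟨y, hy, rfl⟩
        simpa using hy
    rw [h7, Set.ncard_image_of_injective S neg_injective]
  have hDne : D.Nonempty := by
    rw [← Finset.card_pos, hcard]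
    omega
  have := hQ G D Q r h1 h2 h4 h5 hDne (by rw [hcard]; exact h6)
  rwa [hDS] at this

/-- `(log n)^(2/3) (log log n)^(1/3)` is bounded below by a positive constant for `n ≥ 3`. -/
theorem c_pos : ∃ c : ℝ, 0 < c ∧ ∀ n : ℕ, 3 ≤ n →
    c ≤ Real.log n ^ ((2 : ℝ) / 3) * Real.log (Real.log n) ^ ((1 : ℝ) / 3) := by
  have hlog3 : (1 : ℝ) < Real.log 3 := by
    rw [Real.lt_log_iff_exp_lt (by norm_num)]
    exact Real.exp_one_lt_three
  have hll : 0 < Real.log (Real.log 3) := Real.log_pos hlog3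
  refine ⟨Real.log (Real.log 3) ^ ((1 : ℝ) / 3), Real.rpow_pos_of_pos hll _, ?_⟩
  intro n hn
  have hn' : (3 : ℝ) ≤ n := by exact_mod_cast hn
  have h1 : Real.log 3 ≤ Real.log n := Real.log_le_log (by norm_num) hn'
  have h2 : (1 : ℝ) ≤ Real.log n ^ ((2 : ℝ) / 3) :=
    Real.one_le_rpow (hlog3.le.trans h1) (by norm_num)
  have h3 : Real.log (Real.log 3) ≤ Real.log (Real.log n) :=
    Real.log_le_log (by linarith) h1
  have h4 : Real.log (Real.log 3) ^ ((1 : ℝ) / 3) ≤ Real.log (Real.log n) ^ ((1 : ℝ) / 3) :=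
    Real.rpow_le_rpow hll.le h3 (by norm_num)
  have h5 : 0 ≤ Real.log (Real.log n) ^ ((1 : ℝ) / 3) :=
    (Real.rpow_pos_of_pos hll _).le.trans h4
  nlinarith

theorem lower_TT (hQ : G_QUO) (hN : G_NUM) : ∃ C : ℝ, 0 < C ∧
    ∀ (G : Type) [AddCommGroup G] [Fintype G], 3 ≤ Fintype.card G →
      low C (Fintype.card G) ≤ Helper87.MC.TT G := by
  obtain ⟨C, hC, h⟩ := small_isMC hQ hN
  obtain ⟨c, hc, hcn⟩ := c_pos
  refine ⟨C + Real.log 2 / c, by have := Real.log_pos (by norm_num : (1 : ℝ) < 2); positivity, ?_⟩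
  intro G _ _ h3
  set n := Fintype.card G with hn
  set E := Real.log n ^ ((2 : ℝ) / 3) * Real.log (Real.log n) ^ ((1 : ℝ) / 3) with hE
  have hE1 : c ≤ E := hcn n h3
  have hlog2 : 0 < Real.log 2 := Real.log_pos (by norm_num)
  set x := low C n with hx
  have hx0 : 0 ≤ x := by rw [hx, low]; positivity
  -- the constant absorbs a factor `2`
  have h2x : low (C + Real.log 2 / c) n ≤ x / 2 := by
    have h1 : -(C + Real.log 2 / c) * Real.log n ^ ((2 : ℝ) / 3) *
        Real.log (Real.log n) ^ ((1 : ℝ) / 3) ≤ -C * Real.log n ^ ((2 : ℝ) / 3) *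
        Real.log (Real.log n) ^ ((1 : ℝ) / 3) - Real.log 2 := by
      have h2 : Real.log 2 ≤ Real.log 2 / c * E := by
        rw [div_mul_eq_mul_div, le_div_iff₀ hc]
        exact mul_le_mul_of_nonneg_left hE1 hlog2.le
      have h4 : -(C + Real.log 2 / c) * Real.log n ^ ((2 : ℝ) / 3) *
          Real.log (Real.log n) ^ ((1 : ℝ) / 3) = -C * Real.log n ^ ((2 : ℝ) / 3) *
          Real.log (Real.log n) ^ ((1 : ℝ) / 3) - Real.log 2 / c * E := by rw [hE]; ring
      rw [h4]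
      linarith
    rw [low, hx, low, mul_div_assoc]
    refine mul_le_mul_of_nonneg_left ?_ (Real.sqrt_nonneg _)
    calc Real.exp (-(C + Real.log 2 / c) * Real.log n ^ ((2 : ℝ) / 3) *
        Real.log (Real.log n) ^ ((1 : ℝ) / 3))
        ≤ Real.exp (-C * Real.log n ^ ((2 : ℝ) / 3) *
        Real.log (Real.log n) ^ ((1 : ℝ) / 3) - Real.log 2) := Real.exp_le_exp.mpr h1
      _ = _ := by rw [Real.exp_sub, Real.exp_log (by norm_num)]
  refine h2x.trans ?_
  have h1T : (1 : ℝ) ≤ Helper87.MC.TT G := by exact_mod_cast one_le_TT G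
  by_cases hx1 : x ≤ 2
  · linarith
  · push Not at hx1
    have hxn : x ≤ n := by
      have h1 : (1 : ℝ) ≤ n := by exact_mod_cast (by omega : 1 ≤ n)
      have h2 : Real.sqrt n ≤ n := by
        rw [Real.sqrt_le_left (by linarith)]
        nlinarith
      have h4 : Real.exp (-C * Real.log n ^ ((2 : ℝ) / 3) *
          Real.log (Real.log n) ^ ((1 : ℝ) / 3)) ≤ 1 := by
        rw [Real.exp_le_one_iff]
        have h5 : -C * Real.log n ^ ((2 : ℝ) / 3) * Real.log (Real.log n) ^ ((1 : ℝ) / 3) =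
            -(C * E) := by rw [hE]; ring
        rw [h5]
        have : 0 < C * E := mul_pos hC (hc.trans_le hE1)
        linarith
      calc x = Real.sqrt n * _ := by rw [hx, low]
        _ ≤ Real.sqrt n * 1 := mul_le_mul_of_nonneg_left h4 (Real.sqrt_nonneg _)
        _ ≤ n := by linarith
    have hfl : (⌊x⌋₊ : ℝ) ≤ x := Nat.floor_le hx0
    have hfl2 : x - 1 < (⌊x⌋₊ : ℝ) := Nat.sub_one_lt_floor x
    have hT : ⌊x⌋₊ ≤ Helper87.MC.TT G := by
      apply le_TT
      · have : (⌊x⌋₊ : ℝ) ≤ n := hfl.trans hxn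
        exact_mod_cast this
      · intro S hSne hSc
        refine h G S h3 hSne ?_
        have : (S.ncard : ℝ) ≤ ⌊x⌋₊ := by exact_mod_cast hSc
        exact this.trans hfl
    have hT' : (⌊x⌋₊ : ℝ) ≤ Helper87.MC.TT G := by exact_mod_cast hT
    linarith

/-- The exponent `1/2`. -/
theorem exponent (hlow : ∃ C : ℝ, 0 < C ∧
    ∀ (G : Type) [AddCommGroup G] [Fintype G], 3 ≤ Fintype.card G →
      low C (Fintype.card G) ≤ Helper87.MC.TT G)
    (hup : ∃ K : ℝ, ∀ (G : Type) [AddCommGroup G] [Fintype G], 2 ≤ Fintype.card G →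
      (Helper87.MC.TT G : ℝ) ≤ K * Real.sqrt (Fintype.card G) * (Real.log (Fintype.card G)) ^ 3)
    (ε : ℝ) (hε : 0 < ε) : ∃ N : ℕ, ∀ (G : Type) [AddCommGroup G] [Fintype G],
      N ≤ Fintype.card G → (Fintype.card G : ℝ) ^ (1 / 2 - ε) ≤ Helper87.MC.TT G ∧
        (Helper87.MC.TT G : ℝ) ≤ (Fintype.card G : ℝ) ^ (1 / 2 + ε) := by
  obtain ⟨C, hC, hl⟩ := hlow
  obtain ⟨K, hu⟩ := hup
  -- the two asymptotic facts
  have hA : ∀ᶠ x : ℝ in Filter.atTop, C * (Real.log x ^ ((2 : ℝ) / 3) *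
      Real.log (Real.log x) ^ ((1 : ℝ) / 3)) ≤ ε * Real.log x := by
    have h1 : (fun y : ℝ => Real.log y) =o[Filter.atTop] fun y => y :=
      Real.isLittleO_log_id_atTop
    have h2 : ∀ᶠ y : ℝ in Filter.atTop, Real.log y ≤ (ε / C) ^ (3 : ℝ) * y := by
      have h3 := h1.def (c := (ε / C) ^ (3 : ℝ)) (by positivity)
      filter_upwards [h3, Filter.eventually_ge_atTop 1] with y hy hy1
      rw [Real.norm_eq_abs, Real.norm_eq_abs, abs_of_nonneg (Real.log_nonneg hy1),
        abs_of_nonneg (by linarith)] at hy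
      exact hy
    have h3 : ∀ᶠ y : ℝ in Filter.atTop, C * (y ^ ((2 : ℝ) / 3) *
        Real.log y ^ ((1 : ℝ) / 3)) ≤ ε * y := by
      filter_upwards [h2, Filter.eventually_ge_atTop 1] with y hy hy1
      have hy0 : 0 < y := by linarith
      have hl0 : 0 ≤ Real.log y := Real.log_nonneg hy1
      have h4 : Real.log y ^ ((1 : ℝ) / 3) ≤ (ε / C) * y ^ ((1 : ℝ) / 3) := by
        calc Real.log y ^ ((1 : ℝ) / 3) ≤ ((ε / C) ^ (3 : ℝ) * y) ^ ((1 : ℝ) / 3) :=
              Real.rpow_le_rpow hl0 hy (by norm_num)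
          _ = (ε / C) * y ^ ((1 : ℝ) / 3) := by
              rw [Real.mul_rpow (by positivity) hy0.le, ← Real.rpow_mul (by positivity)]
              norm_num
      calc C * (y ^ ((2 : ℝ) / 3) * Real.log y ^ ((1 : ℝ) / 3))
          ≤ C * (y ^ ((2 : ℝ) / 3) * ((ε / C) * y ^ ((1 : ℝ) / 3))) := by gcongr
        _ = ε * (y ^ ((2 : ℝ) / 3) * y ^ ((1 : ℝ) / 3)) := by field_simp
        _ = ε * y := by
            rw [← Real.rpow_add hy0]
            norm_num
    exact Real.tendsto_log_atTop.eventually h3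
  have hB : ∀ᶠ x : ℝ in Filter.atTop, K * (Real.log x) ^ 3 ≤ x ^ ε := by
    have h1 : (fun x : ℝ => Real.log x ^ (3 : ℝ)) =o[Filter.atTop] fun x => x ^ ε :=
      isLittleO_log_rpow_rpow_atTop 3 hε
    have h2 := h1.def (c := 1 / (|K| + 1)) (by positivity)
    filter_upwards [h2, Filter.eventually_ge_atTop 1] with x hx hx1
    have hl0 : 0 ≤ Real.log x := Real.log_nonneg hx1
    have hx0 : (0 : ℝ) ≤ x ^ ε := Real.rpow_nonneg (by linarith) _
    rw [Real.norm_eq_abs, Real.norm_eq_abs, abs_of_nonneg (Real.rpow_nonneg hl0 _),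
      abs_of_nonneg hx0, one_div, inv_mul_eq_div, le_div_iff₀ (by positivity)] at hx
    have h3 : Real.log x ^ (3 : ℝ) = Real.log x ^ 3 := by
      rw [← Real.rpow_natCast]
      norm_num
    rw [h3] at hx
    have h4 : K * Real.log x ^ 3 ≤ |K| * Real.log x ^ 3 :=
      mul_le_mul_of_nonneg_right (le_abs_self K) (by positivity)
    have h5 : 0 ≤ Real.log x ^ 3 := by positivity
    nlinarith
  have hAB := (tendsto_natCast_atTop_atTop (R := ℝ)).eventually (hA.and hB)
  obtain ⟨N, hN⟩ := Filter.eventually_atTop.mp hAB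
  refine ⟨max N 3, ?_⟩
  intro G _ _ hG
  have hN1 : N ≤ Fintype.card G := (le_max_left _ _).trans hG
  have h3 : 3 ≤ Fintype.card G := (le_max_right _ _).trans hG
  obtain ⟨ha, hb⟩ := hN _ hN1
  set n := Fintype.card G with hn
  have hn0 : (0 : ℝ) < n := by exact_mod_cast (by omega : 0 < n)
  constructor
  · refine le_trans ?_ (hl G h3)
    rw [low, Real.sqrt_eq_rpow, Real.rpow_sub hn0, div_eq_mul_inv]
    refine mul_le_mul_of_nonneg_left ?_ (Real.rpow_nonneg hn0.le _)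
    rw [Real.rpow_def_of_pos hn0, ← Real.exp_neg, Real.exp_le_exp]
    have : -C * Real.log n ^ ((2 : ℝ) / 3) * Real.log (Real.log n) ^ ((1 : ℝ) / 3) =
      -(C * (Real.log n ^ ((2 : ℝ) / 3) * Real.log (Real.log n) ^ ((1 : ℝ) / 3))) := by ring
    rw [this]
    linarith
  · refine (hu G (by omega)).trans ?_
    rw [Real.rpow_add hn0, ← Real.sqrt_eq_rpow]
    calc K * Real.sqrt n * Real.log n ^ 3 = Real.sqrt n * (K * Real.log n ^ 3) := by ring
      _ ≤ Real.sqrt n * (n : ℝ) ^ ε := mul_le_mul_of_nonneg_left hb (Real.sqrt_nonneg _)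

end Pool.Agent.Helper26.MCE
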