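import Pool.Agent.Helper26.MCE.Defs

/-!
Project MCE (MP_d8224a_co), block A: the structure theorem (deterministic). Every goal has a complete
proof in its docstring.

Notation in the proofs: `n = |G|`, `r_E(w) = rr E w = #{x ∈ E : x + w ∈ E}`, `T(z) = TT μ E z`,
`μ(Λ) = mass μ Λ`, `D_K = full D K`.
-/

namespace Pool.Agent.Helper26.MCE

open Finset Pool.Agent.Helper87.MC

open Classical in
/-- **LA** (fractional lemma with periods). It extends `Pool.Agent.Helper52.MC.lemA` (file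
Helper52/MC/LemA.lean; import it, its lemmas `ind`, `shr`, `card_shr`, `rr_eq`, `rr_le` and the first
half of the proof of `core` can be used or copied).

PROOF. Dividing `μ`, `a` by `ρ` we may assume `ρ = 1`. Strong induction on `|E|`, for all `S` and `a`.
For a set `S` put `A(S) = ∑_{w ∈ S} μ(w) s_w`, `s_w = r_E(w)/|E|`, `M(S) = ∑_{w ∈ S} μ(w)`. Let `S' ⊆ S`
maximise `A(S')²/M(S')` among the subsets of `S` all of whose elements have `μ(w) > 0`. The statement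
for `S'` implies the one for `S` (`a` serves for `S'` too). Write `S` for `S'`, `A`, `M` for its values.
If `A = 0` nothing is to prove; let `A > 0`. Comparing `S` with `S \\ {w}` (as in the proof of `lemA`)
gives `A ≤ 2 M s_w` for all `w ∈ S`. The first half of the proof of `core` gives (`hstep` there)
`A² - (M - A) ≤ ∑_{w ∈ S} μ(w) s_w A_w`, `A_w = ∑_{u ∈ S} μ(u) r_{E_w}(u)/|E_w|`,
`E_w = shr E w = E ∩ (E - w)`, `|E_w| = r_E(w) > 0`. Put `B = sqrt (M (a + 4 (1 + log |E|))) > 0`.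
(i) Let `S₀` be the set of the `w ∈ S` with `r_E(w) = |E|`; these `w` lie in the subgroup
`Λ = {w : E + w = E}`, and `x + Λ ⊆ E` for `x ∈ E`, so `m₀ := μ(S₀) ≤ a`; also `m₀ ≤ M`, so
`m₀² ≤ M a ≤ B²`, `m₀ ≤ B`. For `w ∈ S₀`: `E_w = E`, `s_w = 1`, `A_w = A`.
(ii) For `w ∈ S \\ S₀`, `|E_w| < |E|`, and `E_w` satisfies the hypotheses with the same `a` (a point
`z ∉ E_w` has `z ∉ E` or `z + w ∉ E`; in the second case `z - u ∈ E_w` implies `z + w - u ∈ E`; a coset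
in `E_w` is a coset in `E`). So `A_w² ≤ M (a + 4 (1 + log |E_w|)) = B² - 4 M log (1/s_w)`, hence
`A_w ≤ B - (2M/B) log (1/s_w) ≤ B - (2M/B) (1 - s_w)` (if `0 ≤ y ≤ B²` and `A_w² ≤ B² - y` then
`A_w ≤ B - y/(2B)`).
(iii) Sum: `A² - (M - A) ≤ m₀ A + (A - m₀) B - (2M/B) ∑_{w ∈ S} μ(w) s_w (1 - s_w)`, and
`∑ μ(w) s_w (1 - s_w) ≥ (A/2M) ∑ μ(w) (1 - s_w) = (A/2M) (M - A)`. So
`(A - m₀)(A - B) ≤ (M - A)(1 - A/B)`. If `A > B` then `A > B ≥ m₀`, the left side is positive and the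
right side is `≤ 0` (`A ≤ M`), a contradiction. So `A ≤ B`, which is the claim. -/
def G_LA : Prop := ∀ (G : Type) [AddCommGroup G] [Fintype G] (μ : G → ℝ) (ρ a : ℝ)
  (S E : Finset G), (∀ w, 0 ≤ μ w) → 0 < ρ → E.Nonempty → (∀ z, z ∉ E → TT μ E z ≤ ρ) →
  (∀ (Λ : AddSubgroup G) (x : G), (∀ h ∈ Λ, x + h ∈ E) →
    (∑ w ∈ S, if w ∈ Λ then μ w else 0) ≤ a) →
  (∑ w ∈ S, μ w * ((rr E w : ℝ) / E.card)) ^ 2 ≤
    (∑ w ∈ S, μ w) * (a + 4 * ρ * (1 + Real.log E.card))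

/-- **CL** (cleaning). May assume `G_LA`.

PROOF. Put `e = 1/(6ℓ)`. Among all pairs `(Λ, j)` with `P ≤ Λ ≤ Λ₀`, `2^j |Λ| ≤ |Λ₀|` and
`mass μ Λ ≥ κ (1 - 3e)^j` (there is one: `(Λ₀, 0)`; always `j ≤ ℓ` as `|Λ₀| ≤ 2^ℓ`) take one with `j`
maximal. By Bernoulli `(1 - 3e)^j ≥ 1 - 3ej ≥ 1/2`, so `m := mass μ Λ ≥ κ/2 > 0`. If `P ≤ Λ' < Λ`
then `2 |Λ'| ≤ |Λ|` (Lagrange), so by maximality `mass μ Λ' < κ (1 - 3e)^(j+1) ≤ (1 - 3e) m`.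
Let `x` be a point with `NF E Λ x` and `R = fib E Λ x`, `R` nonempty (else nothing to prove). Let
`ν w = μ w` for `w ∈ Λ`, `0` otherwise. For `z ∉ R`: `TT ν R z ≤ ρ` (if `z - x ∈ Λ` then `z ∉ E` and
`TT ν R z ≤ TT μ E z ≤ ρ`; otherwise the sum is `0`). Let `y + Λ' ⊆ R`. Then `Λ' ≤ Λ`; with
`Λ'' = Λ' ⊔ P ≤ Λ` also `y + Λ'' ⊆ R` (`R` is `P`-periodic) and `Λ'' ≠ Λ` (otherwise
`x + Λ = y + Λ ⊆ E`), so `mass μ Λ' ≤ mass μ Λ'' ≤ (1 - 3e) m`. `G_LA` for `ν`, `R`, `S = univ`,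
`a = (1 - 3e) m`: with `A = ∑ ν(w) r_R(w)/|R|`,
`A² ≤ m ((1 - 3e) m + 4ρ(1 + log |R|)) ≤ m² (1 - 2e) ≤ ((1 - e) m)²`, because `log |R| ≤ ℓ` and
`4ρ(1 + ℓ) ≤ e m` by the last hypothesis (`24 ρ ℓ (1+ℓ) ≤ κ/2 ≤ m`). So `A ≤ (1 - e) m`. Now
`∑_z TT ν R z = m |R|`, `∑_{z ∈ R} TT ν R z = ∑_w ν(w) r_R(w) = A |R|`, so
`e m |R| ≤ (m - A) |R| = ∑_{z ∉ R} TT ν R z ≤ ρ |Λ|` (only the `z ∈ x + Λ` contribute). Hence
`|R| ≤ ρ |Λ| / (e m) ≤ 12 ρ ℓ / κ · |Λ|`. -/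
def G_CL : Prop := ∀ (G : Type) [AddCommGroup G] [Fintype G] (μ : G → ℝ) (ρ κ : ℝ) (ℓ : ℕ)
  (E : Finset G) (P Λ₀ : AddSubgroup G), (∀ w, 0 ≤ μ w) → 0 < ρ → 0 < κ → 1 ≤ ℓ →
  Fintype.card G ≤ 2 ^ ℓ → (∀ z, z ∉ E → TT μ E z ≤ ρ) → P ≤ Λ₀ → Per E P → κ ≤ mass μ Λ₀ →
  48 * ρ * ℓ * (1 + ℓ) ≤ κ →
  ∃ Λ : AddSubgroup G, P ≤ Λ ∧ Λ ≤ Λ₀ ∧ κ / 2 ≤ mass μ Λ ∧ Clean E Λ (12 * ρ * ℓ / κ)

/-- **HV** (heavy step). May assume `G_LA`, `G_CL`.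

PROOF. Construct `Λ_0 = Δ ≥ Λ_1 ≥ Λ_2 ≥ …` and `A_0 = A ⊇ A_1 ⊇ …` with: `P ≤ Λ_j`,
`m_j := mass μ Λ_j ≥ (16τ²)^(-j)`, `A_j ⊆ E` nonempty, `A_j` saturated (`x ∈ A_j`, `y ∈ E`,
`y - x ∈ Λ_j` imply `y ∈ A_j`), `P`-periodic, and `|A| ≤ 2τ r_{A_j}(w)` for all `w ∈ Λ_j` with
`μ w ≠ 0`; for `j ≥ 1` moreover `Clean E Λ_j δ` and `A_j = A \\ full A Λ_j`.
Step: let `ν = μ` on `Λ_j`, `0` elsewhere. For `z ∉ A_j`, `TT ν A_j z ≤ ρ` (if `TT ν A_j z ≠ 0` then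
`z` is congruent mod `Λ_j` to a point of `A_j`, so `z ∉ E` by saturation, and
`TT ν A_j z ≤ TT μ E z ≤ ρ`). `G_LA` for `ν`, `A_j`, `S = univ`: the left side is at least
`(m_j |A| / (2τ |A_j|))² ≥ (m_j/2τ)²`. If all subgroups `Λ'` with `x + Λ' ⊆ A_j` for some `x` had
`ν`-mass `≤ m_j/8τ²` the right side would be `≤ m_j (m_j/8τ² + 4ρ(1+ℓ)) < (m_j/2τ)²`, because
`64 τ² ρ (1+ℓ) ≤ m_j` (the last hypotheses). So there are `Λ'`, `x` with `x + Λ' ⊆ A_j` and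
`ν`-mass `> m_j/8τ²`. Let `Λ'' = (Λ' ⊓ Λ_j) ⊔ P ≤ Λ_j`; `x + Λ'' ⊆ A_j`, `mass μ Λ'' ≥ m_j/8τ² =: κ`.
`G_CL` with `Λ₀ := Λ''`: `P ≤ Λ_{j+1} ≤ Λ''`, `mass μ Λ_{j+1} ≥ m_j/16τ² > 0`,
`Clean E Λ_{j+1} (96 τ² ρ ℓ / m_j)`, so `Clean E Λ_{j+1} δ` as `1/m_j ≤ (16τ²)^j`. `Λ_{j+1} ≠ P`
(`mass μ P = 0`). (The condition `48ρℓ(1+ℓ) ≤ κ` is `384 τ² ρ ℓ (1+ℓ) ≤ m_j`; it follows from
`96 τ² ρ ℓ (16τ²)^J ≤ δ` and `4 (1+ℓ) δ ≤ 1` if `j ≤ J`.)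
If `|A| ≤ 2τ |full A Λ_{j+1}|` the lemma is proved (`Λ = Λ_{j+1}`). Otherwise put
`A_{j+1} = A \\ full A Λ_{j+1}`: for `w ∈ Λ_{j+1}`, `μ w ≠ 0`, `full A Λ_{j+1}` is invariant under `w`,
so `r_{A_{j+1}}(w) = r_A(w) - |full A Λ_{j+1}| ≥ |A|/τ - |A|/2τ = |A|/2τ`; nonempty, saturated and
periodic are clear.
Termination: for `j ≥ 1`, `x + Λ_{j+1} ⊆ A_j` with `x ∉ full A Λ_j`; as `A` is saturated,
`x + Λ_j ⊄ E`, so `|Λ_{j+1}| ≤ |fib E Λ_j x| ≤ δ |Λ_j|`. Hence `1 ≤ |Λ_{j+1}| ≤ δ^j n` for all `j` for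
which the step is made, so `j < J` (as `δ^J n < 1`, `δ < 1`). -/
def G_HV : Prop := ∀ (G : Type) [AddCommGroup G] [Fintype G] (μ : G → ℝ) (τ ρ δ : ℝ) (ℓ J : ℕ)
  (E A : Finset G) (P Δ : AddSubgroup G), 1 ≤ τ → 0 < ρ → 0 < δ → 1 ≤ ℓ →
  Fintype.card G ≤ 2 ^ ℓ → δ ^ J * Fintype.card G < 1 →
  96 * τ ^ 2 * ρ * ℓ * (16 * τ ^ 2) ^ J ≤ δ → 4 * (1 + ℓ) * δ ≤ 1 →
  (∀ w, 0 ≤ μ w) → ∑ w, μ w = 1 → (∀ w, μ w ≠ 0 → w ∈ Δ ∧ w ∉ P) →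
  (∀ z, z ∉ E → TT μ E z ≤ ρ) → P ≤ Δ → Per E P → A ⊆ E → A.Nonempty →
  (∀ x ∈ A, ∀ y ∈ E, y - x ∈ Δ → y ∈ A) → (∀ w, μ w ≠ 0 → (A.card : ℝ) ≤ τ * rr A w) →
  ∃ Λ : AddSubgroup G, P < Λ ∧ Λ ≤ Δ ∧ Clean E Λ δ ∧ (A.card : ℝ) ≤ 2 * τ * (full A Λ).card

/-- **SUC** (successor subgroup). May assume `G_HV`.

PROOF. Call `(j, K')` admissible if `K' ≤ K`, `Clean D K' (j δ)`, `|A| ≤ (2τ)^j |full A K'|`,
`1 ≤ δ^j |K'|`, and every subgroup `Q ≤ K` with `Per (full D K') Q` satisfies `Q ≤ K'`.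
`(0, ⊥)` is admissible (`full D ⊥ = D`, `full A ⊥ = A`, a non-full fibre of `⊥` is empty, `NoPer D`).
Always `j < J`, because `1 ≤ δ^j |K'| ≤ δ^j n` and `δ^J n < 1`, `δ < 1`. Take an admissible pair with
`j` maximal. Suppose `NoSp D (full A K') K K' τ ρ` fails: there is `μ`. Apply `G_HV` with
`E = full D K'`, `P = K'`, `Δ = K`, `A := full A K'`. (Saturated: `x ∈ full A K'`, `y ∈ full D K'`,
`y - x ∈ K`; then for `h ∈ K' ≤ K`, `y + h ∈ D` and `y + h - x ∈ K`, so `y + h ∈ A`.) Get `Λ` with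
`K' < Λ ≤ K`, `Clean E Λ δ`, `|full A K'| ≤ 2τ |full (full A K') Λ| = 2τ |full A Λ|`. Let `K''` be the
subgroup of all `h ∈ K` with `full D Λ + h = full D Λ`; `Λ ≤ K'' ≤ K`. Claim: `(j+1, K'')` is
admissible, contradiction. `full D K'' = full D Λ` (`⊆`: `Λ ≤ K''`; `⊇`: `x + K'' ⊆ full D Λ ⊆ D`), and
`full A K'' = full A Λ` (same argument, `A` is saturated over `K`). So the conditions on `Q` and on
`|A|` hold. Clean: let `NF D K'' x`. The coset `x + K''` contains no point of `full D K'' = full D Λ`,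
so all its `Λ`-cosets `c` are not contained in `D`; such a `c` is a union of `K'`-cosets; those
contained in `D` lie in `E`, and `|E ∩ c| ≤ δ |Λ|` (`Clean E Λ δ`, `c ⊄ E`); the others contain at most
`j δ |K'|` points of `D` each, together `≤ j δ |Λ|`. So `|D ∩ c| ≤ (j+1) δ |Λ|`; sum over the
`Λ`-cosets in `x + K''`. Size: `E` is not `Λ`-periodic (else `Λ ≤ K'`), so there is `x ∈ E` with
`NF E Λ x`, and `x + K' ⊆ fib E Λ x`, so `|K'| ≤ δ |Λ| ≤ δ |K''|`, `1 ≤ δ^j |K'| ≤ δ^(j+1) |K''|`.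
Result: `K'`, `j ≤ J`; `Clean D K' (J δ)` and `|A| ≤ (2τ)^J |full A K'|` follow from `j ≤ J`. -/
def G_SUC : Prop := ∀ (G : Type) [AddCommGroup G] [Fintype G] (τ ρ δ : ℝ) (ℓ J : ℕ)
  (D A : Finset G) (K : AddSubgroup G), 1 ≤ τ → 0 < ρ → 0 < δ → 1 ≤ ℓ →
  Fintype.card G ≤ 2 ^ ℓ → δ ^ J * Fintype.card G < 1 →
  96 * τ ^ 2 * ρ * ℓ * (16 * τ ^ 2) ^ J ≤ δ → 4 * (1 + ℓ) * δ ≤ 1 →
  NoPer D → A ⊆ D → A.Nonempty → (∀ x ∈ A, ∀ y ∈ D, y - x ∈ K → y ∈ A) →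
  ∃ K' : AddSubgroup G, K' ≤ K ∧ Clean D K' (J * δ) ∧
    (A.card : ℝ) ≤ (2 * τ) ^ J * (full A K').card ∧ NoSp D (full A K') K K' τ ρ

open Classical in
/-- **CNT** (number of popular classes), pure double counting.

PROOF. `A` is a union of fibres `D ∩ c` over `K`-cosets `c` (the set of these cosets is `𝒞`,
`a = |𝒞| ≥ 1`), with `F/2 < |D ∩ c| ≤ F` and `c ⊄ D`. So `|A| > aF/2`, `|B| ≥ |A|/T > aF/(2T)`. Let
`X = (pop D B K t) ∩ M`; it is a union of `K`-cosets contained in `M` (`K ≤ M`); let `N = |X|/|K|` be their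
number. Choose in every such coset `W` a popular `w` (`|B| ≤ t #{b ∈ B : w + b ∈ D}`; by the definition
of `pop` there is one in the coset). Then
`aF/(2Tt) < #{b ∈ B : w + b ∈ D} = ∑_{c ∈ 𝒞} #{b ∈ B ∩ c : w + b ∈ D} ≤ ∑_c min (F, |D ∩ (w + c)|)`.
The `c` with `|D ∩ (w + c)| < F/(4Tt)` contribute at most `aF/(4Tt)`, so at least `a/(4Tt)` cosets `c`
satisfy `|D ∩ (w + c)| ≥ F/(4Tt)`; call the pair `(W, c)` good. There are at least `N a/(4Tt)` good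
pairs. For a fixed `c` the cosets `w + c` (`W` varies) are different `K`-cosets in the `M`-coset of
`c`, which is not contained in `D` (as `c ⊄ D`) and contains at most `F_M` points of `D`; so at most
`4Tt F_M/F` of them are good. So `N a/(4Tt) ≤ a 4Tt F_M/F`, `N F ≤ 16 T² t² F_M`. -/
def G_CNT : Prop := ∀ (G : Type) [AddCommGroup G] [Fintype G] (D A B : Finset G)
  (K M : AddSubgroup G) (F FM : ℕ) (T t : ℝ), K ≤ M → 1 ≤ F → 1 ≤ T → 1 ≤ t → A.Nonempty →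
  A ⊆ D → (∀ x ∈ A, ∀ y ∈ D, y - x ∈ K → y ∈ A) →
  (∀ x ∈ A, NF D K x ∧ (fib D K x).card ≤ F ∧ F < 2 * (fib D K x).card) →
  (∀ x, NF D M x → (fib D M x).card ≤ FM) → B ⊆ A → (A.card : ℝ) ≤ T * B.card →
  (((pop D B K t).filter fun x => x ∈ M).card : ℝ) * F ≤ 16 * T ^ 2 * t ^ 2 * FM * Nat.card K

open Classical in
/-- **STEP** (one step of the chain). May assume `G_SUC`, `G_CNT`.

PROOF. `D` is not `K`-periodic (`NoPer D`, `K ≠ ⊥`), so there is a point `x ∈ D` with `NF D K x`; let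
`F ≥ 1` be the maximal size of `fib D K x` over all `x` with `NF D K x` and `A` the set of the `x ∈ D`
with `NF D K x` and `F < 2 |fib D K x|`: nonempty, saturated over `K` (`NF` and `fib` depend only on
the class of `x`). `G_SUC` (with `τ = 2t`, `ρ = ρh`) gives `K' ≤ K`; put `B = full A K'`, nonempty
because `0 < |A| ≤ (4t)^J |B|`. `b ∈ B` implies `b ∈ full D K'` and `NF D K b`; if moreover
`y ∈ full D K'`, `y - b ∈ K`, then `y + K' ⊆ D` lies in the same `K`-coset, so in `A`, `y ∈ B`.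
`|K'| ≤ F`: for `b ∈ B`, `b + K' ⊆ fib D K b`. The count is `G_CNT` with `T = (4t)^J`. -/
def G_STEP : Prop := ∀ (G : Type) [AddCommGroup G] [Fintype G] (t ρh δ : ℝ) (ℓ J : ℕ)
  (D : Finset G) (K : AddSubgroup G), 1 ≤ t → 0 < ρh → 0 < δ → 1 ≤ ℓ →
  Fintype.card G ≤ 2 ^ ℓ → δ ^ J * Fintype.card G < 1 →
  96 * (2 * t) ^ 2 * ρh * ℓ * (16 * (2 * t) ^ 2) ^ J ≤ δ → 4 * (1 + ℓ) * δ ≤ 1 →
  NoPer D → D.Nonempty → K ≠ ⊥ →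
  ∃ (K' : AddSubgroup G) (B : Finset G) (F : ℕ), K' ≤ K ∧ 1 ≤ F ∧
    (∀ x, NF D K x → (fib D K x).card ≤ F) ∧ (∃ x, NF D K x ∧ (fib D K x).card = F) ∧
    Clean D K' (J * δ) ∧ B.Nonempty ∧ (∀ b ∈ B, b ∈ full D K' ∧ NF D K b) ∧
    (∀ b ∈ B, ∀ y ∈ full D K', y - b ∈ K → y ∈ B) ∧ Nat.card K' ≤ F ∧
    NoSp D B K K' (2 * t) ρh ∧
    ∀ (M : AddSubgroup G) (FM : ℕ), K ≤ M → (∀ x, NF D M x → (fib D M x).card ≤ FM) →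
      (((pop D B K t).filter fun x => x ∈ M).card : ℝ) * F ≤
        16 * (4 * t) ^ (2 * J) * t ^ 2 * FM * Nat.card K

/-- The densities of the chain. -/
noncomputable def rhoC (Q r i : ℕ) : ℝ := (Q : ℝ) ^ ((5 * r + 20) * i) / (Q : ℝ) ^ (90 * r ^ 2)

/-- The densities for the spoiling. -/
noncomputable def rhohC (Q r i : ℕ) : ℝ := (Q : ℝ) ^ 3 * rhoC Q r i

/-- **CHAIN** (structure theorem). May assume `G_STEP`.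

PROOF. `|G| ≥ 2` and `D ≠ univ` (`|D|² Q^(100r²) ≤ n`; so `⊤ ≠ ⊥` and `NF D ⊤ x` for all `x`). Let
`t = Q`, `ℓ = Q`, `J = r + 1`, `δ_i = Q^(3r+10) ρ_i` with `ρ_i = rhoC Q r i`, `ρh_i = Q³ ρ_i`. Then
`96 (2t)² ρh_i ℓ (16 (2t)²)^J = 384 Q³ (64 Q²)^(r+1) ρh_i ≤ Q⁴ Q^(3(r+1)) Q³ ρ_i = δ_i`
(`384 ≤ Q`, `64 ≤ Q`). For `i ≤ r + 1`: `δ_i ≤ Q^(-r²-2)`, because
`3r + 10 + (5r+20)(r+1) + r² + 2 ≤ 90 r²` for `r ≥ 1`. Hence `δ_i^J n ≤ Q^(-(r²+2)(r+1)) Q^(r³) < 1`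
and `4 (1 + Q) δ_i ≤ 1`. Start with `K 0 = ⊤`. As long as `K i ≠ ⊥` and `i ≤ r + 1` apply `G_STEP` to
`K := K i` with `ρh = ρh_i`, `δ = δ_i`: `K (i+1) = K'`, `B i = B`, `f i = F` (`f 0 = |D|`: the fibre over
the coset of `⊤` is `D`). If `K (i+1) ≠ ⊥` then the next `F = f (i+1)` is the size of a non-full
`K (i+1)`-fibre, so `f (i+1) ≤ J δ_i |K (i+1)| ≤ Q · Q^(3r+10) ρ_i |K (i+1)| ≤ ρ_(i+1) |K (i+1)|`
(`r + 1 ≤ Q`, `3r + 11 ≤ 5r + 20`); this is `dens`. Moreover `|K (i+2)| ≤ f (i+1) ≤ Q^(-r²) |K (i+1)|`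
(for `i + 1 ≤ r + 1`: `(5r+20)(r+1) + r² ≤ 90 r²`), so `|K (i+1)| ≤ Q^(-r² i) n`, and
`K (r + 2) ≠ ⊥` would give `2 ≤ |K (r+2)| ≤ Q^(-r²(r+1)) Q^(r³) < 1`. So the process stops at some
`s ≤ r + 2` with `K s = ⊥`, `s ≥ 1`. Put `f s = 0` (a non-full fibre of `⊥` is empty). `cnt` with
`M = K l`, `FM = f l` and `16 (4Q)^(2r+2) Q² ≤ Q^(4r+7)` (`16 ≤ Q`, `(4Q)^(2r+2) ≤ Q^(4r+4)`, as
`16^(r+1) ≤ Q^(2r+2)`). (For indices `> s` the sequences are arbitrary, e.g. constant.) -/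
def G_CHAIN : Prop := ∀ (G : Type) [AddCommGroup G] [Fintype G] (D : Finset G) (Q r : ℕ),
  1 ≤ r → 1024 * (r + 1) ^ 2 ≤ Q → Fintype.card G ≤ 2 ^ Q → Fintype.card G ≤ Q ^ (r ^ 3) →
  D.Nonempty → NoPer D → D.card ^ 2 * Q ^ (100 * r ^ 2) ≤ Fintype.card G →
  ∃ (s : ℕ) (K : ℕ → AddSubgroup G) (f : ℕ → ℕ) (B : ℕ → Finset G), 1 ≤ s ∧ s ≤ r + 2 ∧
    Chain D s K f B (rhoC Q r) (rhohC Q r) Q ((Q : ℝ) ^ (4 * r + 7))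

end Pool.Agent.Helper26.MCE
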