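import Pool.Agent.Helper26.MCE.GoalsA

/-!
Project MCE (MP_d8224a_co), block B: the random construction. Every goal has a complete proof in its
docstring.

`Om s V K` is a product of subgroups; for `i : Fin s × V` the coordinate `ω i` runs through `K i.1`.
`update ω (l, b) x` is `Function.update`. The leaves `u` with `c (l+1) u = b` are the ones whose position
depends on the coordinate `(l, b)`. For two leaves `v ≠ v'` the common level `λ(v, v')` is the largest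
`l` with `c l v = c l v'`; `l < s` by `cs`, `c l v = c l v'` exactly for `l ≤ λ(v, v')` by `ref`.
-/

namespace Pool.Agent.Helper26.MCE

open Finset Pool.Agent.Helper87.MC

open Classical in
/-- **RES** (resampling of one coordinate of a product).

PROOF. Sum over the classes of points of `piFinset K` which differ only in the coordinate `i`: every
class is `{update ω i x : x ∈ K i}`; either `S1` holds on the whole class or nowhere, and in the first
case `S2` holds for at most `q` of its `|K i|` elements. In Lean: double count the pairs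
`(ω, x)`, `ω ∈ piFinset K`, `x ∈ K i`, with `S1 ω` and `S2 (update ω i x)`: the map
`(ω, x) ↦ (update ω i x, ω i)` is a bijection of `{(ω, x)}` onto itself, so their number is
`|K i| #{ω : S1 ω ∧ S2 ω}` (as `S1 ω ↔ S1 (update ω i x)`), and it is at most `q #{ω : S1 ω}`. -/
def G_RES : Prop := ∀ (ι α : Type) [Fintype ι] [DecidableEq ι] (K : ι → Finset α) (i : ι)
  (S1 S2 : (ι → α) → Prop) (q : ℕ),
  (∀ ω ∈ Fintype.piFinset K, ∀ x ∈ K i, (S1 ω ↔ S1 (Function.update ω i x))) →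
  (∀ ω ∈ Fintype.piFinset K, S1 ω →
    ((K i).filter fun x => S2 (Function.update ω i x)).card ≤ q) →
  ((Fintype.piFinset K).filter fun ω => S1 ω ∧ S2 ω).card * (K i).card ≤
    q * ((Fintype.piFinset K).filter S1).card

open Classical in
/-- **POS** (facts on positions).

PROOF. (1) Split the sum over `l`; for `l < i` the coordinates agree (`c (l+1) v = c (l+1) v'` because
`l + 1 ≤ i`, by `ref`), for `l ≥ i` both terms lie in `K l ≤ K i`. (2) The coordinate `(l, c (l+1) u)`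
of `v'` is different from `(λ, c (λ+1) v)`. (3) Exactly the term `l = λ` changes. -/
def G_POS : Prop := ∀ (G : Type) [AddCommGroup G] [Fintype G] (s : ℕ) (V : Type) [Fintype V]
  (K : ℕ → AddSubgroup G) (c : ℕ → V → V), (∀ i < s, K (i + 1) ≤ K i) →
  (∀ i < s, ∀ v v', c (i + 1) v = c (i + 1) v' → c i v = c i v') →
  (∀ ω ∈ Om s V K, ∀ i ≤ s, ∀ v v', c i v = c i v' → pos c ω v - pos c ω v' ∈ K i) ∧
  (∀ (ω : Fin s × V → G) (l : Fin s) (b : V) (x : G) (v : V), c (l + 1) v ≠ b →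
    pos c (Function.update ω (l, b) x) v = pos c ω v) ∧
  (∀ (ω : Fin s × V → G) (l : Fin s) (x : G) (v : V),
    pos c (Function.update ω (l, c (l + 1) v) x) v = pos c ω v - ω (l, c (l + 1) v) + x) ∧
  (∀ v v' : V, c 0 v = c 0 v' → c s v ≠ c s v' → ∃ l < s, c l v = c l v' ∧
    c (l + 1) v ≠ c (l + 1) v' ∧ (∀ j ≤ l, c j v = c j v') ∧ ∀ j, l < j → j ≤ s → c j v ≠ c j v')

open Classical in
/-- **ONE** (one step). May assume `G_RES`, `G_POS`.

PROOF. `G_RES` for the coordinate `i₀ = (l, c (l+1) v)`, whose range is `K l`. By `G_POS` (3),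
`pos (update ω i₀ x) v = a + x` with `a = pos ω v - ω i₀`, and `y (update ω i₀ x) = y ω`. First part:
the number of `x ∈ K l` with `y - a - x ∈ D` is at most `|D ∩ (y - a + K l)| = |fib D (K l) (y - a)|`
(injection `x ↦ y - a - x`), and `y - a ≡ y - pos ω v` mod `K l`, so this coset is not full
(hypothesis) and the number is `≤ f l`. Second part: the number of `x ∈ K l` with `a + x - y ∈ D` is
`≤ |fib D (K l) (a - y)|`, the same. (`NF` and `fib` depend only on the class.) The range of the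
coordinate has `Nat.card (K l)` elements. -/
def G_ONE : Prop := ∀ (G : Type) [AddCommGroup G] [Fintype G] (s : ℕ) (V : Type) [Fintype V]
  (D : Finset G) (K : ℕ → AddSubgroup G) (c : ℕ → V → V) (f : ℕ → ℕ) (l : Fin s) (v : V)
  (S1 : (Fin s × V → G) → Prop) (y : (Fin s × V → G) → G),
  (∀ i < s, K (i + 1) ≤ K i) →
  (∀ i < s, ∀ v v', c (i + 1) v = c (i + 1) v' → c i v = c i v') →
  (∀ x, NF D (K l) x → (fib D (K l) x).card ≤ f l) →
  (∀ ω ∈ Om s V K, ∀ x ∈ K l, (S1 ω ↔ S1 (Function.update ω (l, c (l + 1) v) x)) ∧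
    y (Function.update ω (l, c (l + 1) v) x) = y ω) →
  ((∀ ω ∈ Om s V K, S1 ω → NF D (K l) (y ω - pos c ω v)) →
    ((Om s V K).filter fun ω => S1 ω ∧ y ω - pos c ω v ∈ D).card * Nat.card (K l) ≤
      f l * ((Om s V K).filter S1).card) ∧
  ((∀ ω ∈ Om s V K, S1 ω → NF D (K l) (pos c ω v - y ω)) →
    ((Om s V K).filter fun ω => S1 ω ∧ pos c ω v - y ω ∈ D).card * Nat.card (K l) ≤
      f l * ((Om s V K).filter S1).card)

open Classical in
/-- **DC** (deterministic coverage). May assume `G_POS`.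

PROOF. Downward induction on `l`, from `s` to `1`. `l = s`: `c s v' = c s v` means `v' = v`, `K s = ⊥`,
the only point is `y = q`, and `NF` says `q - pos v ∉ D`. `l < s`, `1 ≤ l`: let `U = {v' : c l v' = c l v}`.
If `|U| f l ≤ ρ l |K l|`: for `v' ∈ U`, `q - pos v' ≡ q - pos v` mod `K l`, so the coset is not full for
`v'` and `v'` covers at most `f l` of its points; together `≤ ρ l |K l|`. Otherwise (`up`) all `v' ∈ U`
have `c (l+1) v' = c (l+1) v`. Split `q + K l` into cosets `q' + K (l+1)`. Those contained in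
`pos v + D`: together they have at most `|fib D (K l) (q - pos v)| ≤ f l ≤ ρ l |K l|` points (`dens`).
The others: `NF D (K (l+1)) (q' - pos v)`, the induction hypothesis gives at most
`(∑_{l < l' < s} ρ l') |K (l+1)|` covered points each, together `≤ (∑_{l < l' < s} ρ l') |K l|`. -/
def G_DC : Prop := ∀ (G : Type) [AddCommGroup G] [Fintype G] (s : ℕ) (V : Type) [Fintype V]
  (D : Finset G) (K : ℕ → AddSubgroup G) (f : ℕ → ℕ) (B : ℕ → Finset G) (ρ ρh : ℕ → ℝ) (t L2 : ℝ)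
  (c : ℕ → V → V) (ty : V → ℕ) (m : ℕ) (lam : ℕ → ℕ), Chain D s K f B ρ ρh t L2 →
  Forest s V c ty f (fun i => Nat.card (K i)) ρ m lam → (∀ i, 0 < ρ i) →
  ∀ ω ∈ Om s V K, ∀ l, 1 ≤ l → l ≤ s → ∀ (v : V) (q : G), NF D (K l) (q - pos c ω v) →
    ((univ.filter fun y => y - q ∈ K l ∧ ∃ v', c l v' = c l v ∧ Cov D c ω v' y).card : ℝ) ≤
      (∑ i ∈ Ico l s, ρ i) * Nat.card (K l)

open Classical in
/-- **NS** (no persistent spoiling, as a statement on finite probability spaces).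

PROOF. Let `W` be the set in the conclusion and suppose `ρh |W| > ρ' |Ω|`; then `W` is nonempty. Choose
`w(ω)` for `ω ∈ W` and let `μ(w) = #{ω ∈ W : w(ω) = w}/|W|`. It is a probability measure, supported on
`w ∈ K`, `w ∉ K'` with `|B| ≤ τ r_B(w)`. Let `z ∉ full D K'`. If `z - w(ω) ∈ full D K'` then for every
`h ∈ K'` also `z - w(ω) + h ∈ full D K'`, so `w(ω) + (z - w(ω) + h) = z + h ∈ S ω`. So
`TT μ (full D K') z ≤ #{ω ∈ Ω : ∀ h ∈ K', z + h ∈ S ω}/|W| ≤ ρ' |Ω|/|W| ≤ ρh`, in contradiction to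
`NoSp`. -/
def G_NS : Prop := ∀ (G : Type) [AddCommGroup G] [Fintype G] (D B : Finset G)
  (K K' : AddSubgroup G) (τ ρh ρ' : ℝ) (Ω : Type) (Om : Finset Ω) (S : Ω → Set G),
  NoSp D B K K' τ ρh → 0 ≤ ρ' → 0 < ρh →
  (∀ z, z ∉ full D K' → ((Om.filter fun ω => ∀ h ∈ K', z + h ∈ S ω).card : ℝ) ≤
    ρ' * Om.card) →
  ρh * ((Om.filter fun ω => ∃ w, w ∈ K ∧ w ∉ K' ∧ (B.card : ℝ) ≤ τ * rr B w ∧
    ∀ z ∈ full D K', w + z ∉ full D K' → w + z ∈ S ω).card : ℝ) ≤ ρ' * Om.card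

open Classical in
/-- **SPB** (probability of spoiling). May assume `G_POS`, `G_ONE`, `G_DC`, `G_NS`.

PROOF. Fix `v`, `i < s`. `G_NS` with `Ω = Om`, `K := K i`, `K' := K (i+1)`, `τ = 2t`,
`S ω = {x : ∃ v', Cov v' (pos v + x)}`. Let `z ∉ full D (K (i+1))`, so `NF D (K (i+1)) z`. Suppose
`z + h ∈ S ω` for all `h ∈ K (i+1)`: the coset `pos v + z + K (i+1)` is covered. The leaves `v'` with
`c (i+1) v' = c (i+1) v` cover at most `(∑_{i < l < s} ρ l) |K (i+1)| ≤ |K (i+1)|/2` of its points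
(`G_DC` with `l = i + 1`, `q = pos v + z`). So the other leaves cover at least half of it. For
`h ∈ K (i+1)` and `v'` with `c (i+1) v' ≠ c (i+1) v` let `l = λ(v, v') ≤ i`; by `G_ONE` (first part, for
the leaf `v'`, level `l`, `S1 = True`, `y ω = pos ω v + z + h`: the coordinate `(l, c (l+1) v')` does
not occur in `pos v` as `c (l+1) v ≠ c (l+1) v'`) the number of `ω` with
`pos v + z + h - pos v' ∈ D` is at most `(f l/|K l|) |Om|`. The hypothesis of `G_ONE`: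
`y - pos v' ≡ z + h` mod `K l` (`pos v - pos v' ∈ K l`), and `z + h + K l` is not contained in `D`,
because `K (i+1) ≤ K l` and `NF D (K (i+1)) z`. The number of the `v'` with `λ(v, v') = l` times `f l` is
at most `ρ l |K l|` (`up`: in the second case there is none). So
`∑_ω #{h : pos v + z + h covered by another v'} ≤ |K (i+1)| (∑_{l ≤ i} ρ l) |Om|`, and the number of
the `ω` for which this number is `≥ |K (i+1)|/2` is at most `2 (∑_{l ≤ i} ρ l) |Om| =: ρ' |Om|`.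
`Spoil` implies the event of `G_NS` (`full D` part: `w + z ∈ S ω` for all `z ∈ full D (K (i+1))`). -/
def G_SPB : Prop := ∀ (G : Type) [AddCommGroup G] [Fintype G] (s : ℕ) (V : Type) [Fintype V]
  (D : Finset G) (K : ℕ → AddSubgroup G) (f : ℕ → ℕ) (B : ℕ → Finset G) (ρ ρh : ℕ → ℝ) (t L2 : ℝ)
  (c : ℕ → V → V) (ty : V → ℕ) (m : ℕ) (lam : ℕ → ℕ), Chain D s K f B ρ ρh t L2 →
  Forest s V c ty f (fun i => Nat.card (K i)) ρ m lam → (∀ i, 0 < ρ i) → (∀ i, 0 < ρh i) →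
  ∑ i ∈ range s, ρ i ≤ 1 / 2 →
  ∀ i < s, ∀ v : V, ρh i * (((Om s V K).filter fun ω => Spoil D K B t c i ω v).card : ℝ) ≤
    2 * (∑ l ∈ range (i + 1), ρ l) * (Om s V K).card

open Classical in
/-- **FOR** (probability of being popular for a foreign cluster). May assume `G_RES`, `G_POS`.

PROOF. Fix `v` and `1 ≤ i < s`. For a leaf `v'` with `i ≤ ty v'`, `c i v' ≠ c i v`, let
`l = λ(v, v') < i`. Resample the coordinate `(l, c (l+1) v')` (`G_RES`, `S1 = True`): `pos v` does not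
change, `pos v' = a + x`, `x ∈ K l`, and `a - pos v ∈ K l` (`G_POS`). The number of the `x ∈ K l` with
`a + x - pos v ∈ pop D (B i) (K i) t` is at most `|pop ∩ K l|`. So with `cnt`
`#{ω : pos v' - pos v ∈ pop} |K l| ≤ |pop ∩ K l| |Om|` and `|pop ∩ K l| f i ≤ L2 f l |K i|`.
Let `n' = #{v'' : c i v'' = c i v'}`; `low`: `ρ i |K i| ≤ 2 n' f i` (as `1 ≤ i ≤ ty v'`). If the event
holds for `v'` it holds for all `v''` in the class of `v'` of the level `i` (`pos v'' - pos v' ∈ K i`, and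
`pop` is `K i`-periodic; `i ≤ ty v''`: if `ty v'' < i` then `single` gives `v' = v''`; and
`λ(v, v'') = λ(v, v')`). So the number of the `ω` with `Foreign` is at most
`∑_{v'} (1/n'(v')) #{ω : event(v')} ≤ ∑_{v'} (2 f i/(ρ i |K i|)) (L2 f l |K i|/(f i |K l|)) |Om|
= ∑_{v'} 2 L2 f l/(ρ i |K l|) |Om|`, and for every `l < i` the number of the `v'` with `λ(v, v') = l`
times `f l` is at most `ρ l |K l|` (`up`). So it is `≤ (2 L2/ρ i) ∑_{l < i} ρ l |Om|`. -/
def G_FOR : Prop := ∀ (G : Type) [AddCommGroup G] [Fintype G] (s : ℕ) (V : Type) [Fintype V]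
  (D : Finset G) (K : ℕ → AddSubgroup G) (f : ℕ → ℕ) (B : ℕ → Finset G) (ρ ρh : ℕ → ℝ) (t L2 : ℝ)
  (c : ℕ → V → V) (ty : V → ℕ) (m : ℕ) (lam : ℕ → ℕ), Chain D s K f B ρ ρh t L2 →
  Forest s V c ty f (fun i => Nat.card (K i)) ρ m lam → (∀ i, 0 < ρ i) → 0 ≤ L2 →
  ∀ i, 1 ≤ i → i < s → ∀ v : V,
    ρ i * (((Om s V K).filter fun ω => Foreign D K B t c ty i ω v).card : ℝ) ≤
      2 * L2 * (∑ l ∈ range i, ρ l) * (Om s V K).card

open Classical in
/-- **LDS** (the sum over the covering leaves). May assume `G_POS`, `G_ONE`.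

PROOF. Let `σ = ∑_{l < s} ρ l`. Induction on `k` (with `b : Fin k → G`; bound `(∏_{a < k} (a+1) σ) |Om|`
`≤ (k σ)^k |Om|`; it is convenient to prove the product form). Step from `k` to `k + 1`: let
`S1 ω` be the event for the first `k` indices (including `pos v₀ - g ∈ K i`), for fixed leaves
`v 0, …, v (k-1)`, `u = v k`, `p = g + b k`. Claim: `#{ω : S1 ω ∧ Cov u p ∧ ∀ a < k, ¬ Cov (v a) p} ≤
(f l/|K l|) #{ω : S1 ω}` where `l` is the maximum of `λ(u, v a)`, `a < k` (if `u = v a` for some `a`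
the left side is `0`), and of `l₀ = min (i, λ(u, v₀))` (`λ(u, u) = s`); `l < s`. Proof: replace `S1` by
`S1' = S1 ∧ ∀ a < k, ¬ Cov (v a) p`. The coordinate `(l, c (l+1) u)` does not occur in `pos (v a)`
(`λ(u, v a) ≤ l`). If `l < i` it does not occur in `pos v₀` (then `λ(u, v₀) = l₀ ≤ l`); if `l ≥ i` the
change of `pos v₀` is in `K l ≤ K i`, which does not change `pos v₀ - g ∈ K i`. So `S1'` does not depend
on it. `G_ONE` (first part, leaf `u`, `y = p` constant) applies if `NF D (K l) (p - pos u)`: if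
`l = λ(u, v a)` then `pos u - pos (v a) ∈ K l` and `p - pos (v a) ∉ D`, so the coset contains a point
outside `D`; if `l = l₀` then `pos u ≡ pos v₀ ≡ g` mod `K l` (`l ≤ λ(u, v₀)`, `l ≤ i`), so
`p - pos u ≡ b k` mod `K l`, and `NF D (K i) (b k)` (`Bsub`) with `K i ≤ K l`. Sum over all `u` with
`¬ Own v₀ u`: for every `a < k` the `u` with `l = λ(u, v a)` contribute at most `∑_l ρ l = σ` (number
of the `u` with `λ(u, v a) = l`, times `f l`, is `≤ ρ l |K l|` by `up`); the `u` with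
`l = l₀ = λ(u, v₀) < i` contribute at most `∑_{l < i} ρ l`; the `u` with `l = l₀ = i`, i.e.
`c i u = c i v₀`, are not in `Own`, so if there is one, `|{v : c i v = c i v₀}| f i ≤ ρ i |K i|`, and they
contribute at most `ρ i`. Total `≤ (k + 1) σ`. -/
def G_LDS : Prop := ∀ (G : Type) [AddCommGroup G] [Fintype G] (s : ℕ) (V : Type) [Fintype V]
  (D : Finset G) (K : ℕ → AddSubgroup G) (f : ℕ → ℕ) (B : ℕ → Finset G) (ρ ρh : ℕ → ℝ) (t L2 : ℝ)
  (c : ℕ → V → V) (ty : V → ℕ) (m : ℕ) (lam : ℕ → ℕ), Chain D s K f B ρ ρh t L2 →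
  Forest s V c ty f (fun i => Nat.card (K i)) ρ m lam → (∀ i, 0 < ρ i) →
  ∀ i < s, ∀ (v₀ : V) (g : G) (k : ℕ) (b : Fin k → G), (∀ a, b a ∈ B i) →
    ((∑ v : Fin k → V, ((Om s V K).filter fun ω => pos c ω v₀ - g ∈ K i ∧
      ∀ a, ¬ Own c f (fun i => Nat.card (K i)) ρ i v₀ (v a) ∧ Cov D c ω (v a) (g + b a) ∧
        ∀ a' < a, ¬ Cov D c ω (v a') (g + b a)).card : ℕ) : ℝ) ≤
      (k * ∑ l ∈ range s, ρ l) ^ k * (Om s V K).card

open Classical in
/-- **TUP** (many tuples of points covered by new sets), pure counting.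

PROOF. Induction on `m`, number of the tuples of length `m` at least `(|B|/4)^m` (while
`4 m ≤ t`). Step: let `b` be a good tuple of length `m` with covering sets `v 0, …, v (m-1)`. The sets
`R (v a)` cover together at most `m |B|/t ≤ |B|/4` points of `B`, and `W`-sets cover more than `|B|/2`
points, so at least `|B|/4` points `b'` of `B` are covered by some `v'` with `W v'` and by none of the
`R (v a)`; every one of them extends `b` (`Fin.snoc`), different pairs `(b, b')` give different tuples. -/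
def G_TUP : Prop := ∀ (α V : Type) (B : Finset α) (R : V → α → Prop) (W : V → Prop) (t : ℝ)
  (m : ℕ), 0 < t → 4 * (m : ℝ) ≤ t →
  (∀ v, W v → t * ((B.filter fun b => R v b).card : ℝ) ≤ B.card) →
  B.card < 2 * (B.filter fun b => ∃ v, W v ∧ R v b).card →
  ((B.card : ℝ) / 4) ^ m ≤ (((Fintype.piFinset fun _ : Fin m => B).filter fun b =>
    ∃ v : Fin m → V, ∀ a, W (v a) ∧ R (v a) (b a) ∧ ∀ a' < a, ¬ R (v a') (b a)).card : ℝ)

open Classical in
/-- **LDB** (large deviations). May assume `G_LDS`, `G_TUP`.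

PROOF. Let `ω` be in the event `LD`. `G_TUP` with `B := B i`, `R v b = Cov v (g + b)`,
`W v = (¬ Own v₀ v ∧ t hit v ≤ |B i|)`: there are at least `(|B i|/4)^m` tuples `b ∈ (B i)^m` for which
some `v : Fin m → V` satisfies the condition in `G_LDS`. So
`(|B i|/4)^m #{ω : LD} ≤ ∑_{b ∈ (B i)^m} ∑_v #{ω : …} ≤ |B i|^m (m σ)^m |Om|`; divide by
`(|B i|/4)^m > 0` (`Bne`). -/
def G_LDB : Prop := ∀ (G : Type) [AddCommGroup G] [Fintype G] (s : ℕ) (V : Type) [Fintype V]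
  (D : Finset G) (K : ℕ → AddSubgroup G) (f : ℕ → ℕ) (B : ℕ → Finset G) (ρ ρh : ℕ → ℝ) (t L2 : ℝ)
  (c : ℕ → V → V) (ty : V → ℕ) (m : ℕ) (lam : ℕ → ℕ), Chain D s K f B ρ ρh t L2 →
  Forest s V c ty f (fun i => Nat.card (K i)) ρ m lam → (∀ i, 0 < ρ i) → 1 ≤ t →
  4 * (m : ℝ) ≤ t → ∀ i < s, ∀ (v₀ : V) (g : G),
    (((Om s V K).filter fun ω => LD D K B t c f (fun i => Nat.card (K i)) ρ i ω v₀ g).card : ℝ) ≤
      (4 * m * ∑ l ∈ range s, ρ l) ^ m * (Om s V K).card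

open Classical in
/-- **MB** (marks covered from outside of the later trees). May assume `G_POS`, `G_ONE`.

PROOF. Let `σ = ∑_{l < s} ρ l`, and for a set `I` of indices let `E_I` be the event
`∀ a ∈ I, ∃ v' ≠ v a, (∀ a' > a, c 1 v' ≠ c 1 (v a')) ∧ Cov v' (pos (v a) + d)`. Induction on `I` by
adding a new maximum `a₀` (`Finset.induction_on_max`). `E_I` does not depend on the coordinates
`(l, c (l+1) (v a₀))`: they occur only in the positions of leaves `u` with `c 1 u = c 1 (v a₀)`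
(`c (l+1) u = c (l+1) (v a₀)` implies this), whereas `c 1 (v a) ≠ c 1 (v a₀)` and the witnesses `v'` for
`a < a₀` satisfy `c 1 v' ≠ c 1 (v a₀)`. For every `v' ≠ v a₀` let `l = λ(v a₀, v')`. By `G_ONE` (second
part, leaf `v a₀`, level `l`, `S1 = E_I`, `y ω = pos v' - d`, which does not depend on the coordinate as
`c (l+1) v' ≠ c (l+1) (v a₀)`): `#{E_I ∧ Cov v' (pos (v a₀) + d)} ≤ (f l/|K l|) #E_I`; the hypothesis
`NF D (K l) (pos (v a₀) + d - pos v')`: `pos (v a₀) - pos v' ∈ K l` and `NF D (K l) d`. Here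
`l ≤ ty (v a₀) = j` (`single`: if `j < l` then `c l v' = c l (v a₀)` gives `v' = v a₀`), and
`d ∉ full D (K j)`, `d ∈ D`, so `NF D (K j) d`, so `NF D (K l) d`. Sum over `v'`: `≤ σ #E_I` (`up`). -/
def G_MB : Prop := ∀ (G : Type) [AddCommGroup G] [Fintype G] (s : ℕ) (V : Type) [Fintype V]
  (D : Finset G) (K : ℕ → AddSubgroup G) (f : ℕ → ℕ) (B : ℕ → Finset G) (ρ ρh : ℕ → ℝ) (t L2 : ℝ)
  (c : ℕ → V → V) (ty : V → ℕ) (m : ℕ) (lam : ℕ → ℕ), Chain D s K f B ρ ρh t L2 →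
  Forest s V c ty f (fun i => Nat.card (K i)) ρ m lam → (∀ i, 0 < ρ i) →
  ∀ j < s, ∀ d ∈ lab D K j, ∀ (k : ℕ) (v : Fin k → V), (∀ a, ty (v a) = j) →
    (∀ a a', a ≠ a' → c 1 (v a) ≠ c 1 (v a')) → ∀ I : Finset (Fin k),
    (((Om s V K).filter fun ω => ∀ a ∈ I, ∃ v', v' ≠ v a ∧
      (∀ a', a < a' → c 1 v' ≠ c 1 (v a')) ∧ Cov D c ω v' (pos c ω (v a) + d)).card : ℝ) ≤
      (∑ l ∈ range s, ρ l) ^ I.card * (Om s V K).card

open Classical in
/-- **MF** (marks covered by the later trees). May assume `G_POS`, `G_ONE`.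

PROOF. As for `G_MB`, but by adding a new minimum `a₀` (`Finset.induction_on_min`); event
`∀ a ∈ I, ∃ v', (∃ a' > a, c 1 v' = c 1 (v a')) ∧ Cov v' (pos (v a) + d)`. For `a ∈ I`, `a > a₀`, the
leaves `v a` and the witnesses `v'` (in the class of some `v a'`, `a' > a > a₀`) have `c 1 ≠ c 1 (v a₀)`,
so `E_I` does not depend on the coordinates `(l, c (l+1) (v a₀))`. The witness `v'` for `a₀` has
`c 1 v' = c 1 (v a') ≠ c 1 (v a₀)`, so `v' ≠ v a₀` and the same estimate as in `G_MB` holds. -/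
def G_MF : Prop := ∀ (G : Type) [AddCommGroup G] [Fintype G] (s : ℕ) (V : Type) [Fintype V]
  (D : Finset G) (K : ℕ → AddSubgroup G) (f : ℕ → ℕ) (B : ℕ → Finset G) (ρ ρh : ℕ → ℝ) (t L2 : ℝ)
  (c : ℕ → V → V) (ty : V → ℕ) (m : ℕ) (lam : ℕ → ℕ), Chain D s K f B ρ ρh t L2 →
  Forest s V c ty f (fun i => Nat.card (K i)) ρ m lam → (∀ i, 0 < ρ i) →
  ∀ j < s, ∀ d ∈ lab D K j, ∀ (k : ℕ) (v : Fin k → V), (∀ a, ty (v a) = j) →
    (∀ a a', a ≠ a' → c 1 (v a) ≠ c 1 (v a')) → ∀ I : Finset (Fin k),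
    (((Om s V K).filter fun ω => ∀ a ∈ I, ∃ v',
      (∃ a', a < a' ∧ c 1 v' = c 1 (v a')) ∧ Cov D c ω v' (pos c ω (v a) + d)).card : ℝ) ≤
      (∑ l ∈ range s, ρ l) ^ I.card * (Om s V K).card

open Classical in
/-- **MT** (many tuples in different classes), pure counting.

PROOF. Induction on `k ≤ m`: the number of the tuples of length `k` of elements of `X` with pairwise
different `cl` is at least `(N/8)^k`: a tuple of length `k < m` excludes at most `k` classes, at most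
`k N/(8m) ≤ N/8` elements, and `|X| > N/4`. -/
def G_MT : Prop := ∀ (V : Type) [Fintype V] (X : Finset V) (cl : V → V) (N m : ℕ),
  (∀ v ∈ X, 8 * m * (univ.filter fun v' => cl v' = cl v).card ≤ N) → N < 4 * X.card →
  ((N : ℝ) / 8) ^ m ≤ (((Fintype.piFinset fun _ : Fin m => X).filter fun v =>
    ∀ a a', a ≠ a' → cl (v a) ≠ cl (v a')).card : ℝ)

open Classical in
/-- **MK** (marks). May assume `G_MB`, `G_MF`, `G_MT`.

PROOF. Let `σ = ∑_{l < s} ρ l ≤ 1`, `N = #{v : ty v = j}`. For a tuple `v : Fin (2k) → V` of leaves of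
type `j` with pairwise different `c 1`: if all `BadMark d (v a)` hold, let `I` be the set of the `a`
which have a witness `v'` with `c 1 v' = c 1 (v a')` for some `a' > a`; the other `a` have a witness as
in `G_MB`. `I` or its complement has at least `k` elements. So the number of these `ω` is at most
`∑_I 2 σ^k |Om| ≤ 2 · 4^k σ^k |Om|` (sum over all subsets `I` of `Fin (2k)` with `≥ k` elements of the
bounds of `G_MF` for `I` and `G_MB` for `I`, both `≤ σ^k |Om|`). If `N < 4 #{v : ty v = j, BadMark d v}`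
there are at least `(N/8)^(2k)` such tuples (`G_MT` with `m = 2k`; `many`). So
`(N/8)^(2k) #{ω : …} ≤ N^(2k) · 2 · 4^k σ^k |Om|`, `#{ω : …} ≤ 2 (8² · 4 σ)^k |Om|`. -/
def G_MK : Prop := ∀ (G : Type) [AddCommGroup G] [Fintype G] (s : ℕ) (V : Type) [Fintype V]
  (D : Finset G) (K : ℕ → AddSubgroup G) (f : ℕ → ℕ) (B : ℕ → Finset G) (ρ ρh : ℕ → ℝ) (t L2 : ℝ)
  (c : ℕ → V → V) (ty : V → ℕ) (k : ℕ) (lam : ℕ → ℕ), Chain D s K f B ρ ρh t L2 →
  Forest s V c ty f (fun i => Nat.card (K i)) ρ (2 * k) lam → (∀ i, 0 < ρ i) →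
  ∑ i ∈ range s, ρ i ≤ 1 → ∀ j < s, ∀ d ∈ lab D K j,
    (((Om s V K).filter fun ω => (univ.filter fun v => ty v = j).card <
      4 * (univ.filter fun v => ty v = j ∧ BadMark D c ω d v).card).card : ℝ) ≤
      2 * (256 * ∑ l ∈ range s, ρ l) ^ k * (Om s V K).card

open Classical in
/-- **GOOD** (existence of a good point). May assume `G_SPB`, `G_FOR`, `G_LDB`, `G_MK`.

PROOF. `|Om| ≥ 1`. For every leaf `v` the number of the `ω` with `Del ω v` is at most
`∑_{i < s} (2 ∑_{l ≤ i} ρ l/ρh i) |Om| + ∑_{1 ≤ i < s} (2 L2 ∑_{l < i} ρ l/ρ i) |Om| ≤ η |Om|`. For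
`j < s` with `N_j = #{v : ty v = j}` the number of the `ω` with `N_j < 8 #{v : ty v = j ∧ Del}` is at
most `8 η |Om|` (Markov). So the number of the `ω` for which one of the conditions of `Good` fails is at
most `(s · 8 η + s |V| |G| (4 m σ)^m + s |D| · 2 (256 σ)^k) |Om| < |Om|` (`m = 2k`;
`G_LDB` for all `i < s`, `v`, `g`; `G_MK` for all `j < s`, `d ∈ lab D K j ⊆ D`). -/
def G_GOOD : Prop := ∀ (G : Type) [AddCommGroup G] [Fintype G] (s : ℕ) (V : Type) [Fintype V]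
  (D : Finset G) (K : ℕ → AddSubgroup G) (f : ℕ → ℕ) (B : ℕ → Finset G) (ρ ρh : ℕ → ℝ) (t L2 : ℝ)
  (c : ℕ → V → V) (ty : V → ℕ) (k : ℕ) (lam : ℕ → ℕ) (η : ℝ), Chain D s K f B ρ ρh t L2 →
  Forest s V c ty f (fun i => Nat.card (K i)) ρ (2 * k) lam → (∀ i, 0 < ρ i) → (∀ i, 0 < ρh i) →
  0 ≤ L2 → 1 ≤ t → 4 * ((2 * k : ℕ) : ℝ) ≤ t → ∑ i ∈ range s, ρ i ≤ 1 / 2 →
  ∑ i ∈ range s, 2 * (∑ l ∈ range (i + 1), ρ l) / ρh i +
    ∑ i ∈ Ico 1 s, 2 * L2 * (∑ l ∈ range i, ρ l) / ρ i ≤ η →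
  s * (8 * η) < 1 / 3 →
  s * Fintype.card V * Fintype.card G * (4 * (2 * k : ℕ) * ∑ l ∈ range s, ρ l) ^ (2 * k) < 1 / 3 →
  s * D.card * (2 * (256 * ∑ l ∈ range s, ρ l) ^ k) < 1 / 3 →
  ∃ ω : Fin s × V → G, Good D K B t c ty f (fun i => Nat.card (K i)) ρ ω

/-- **DET** (detection; deterministic). May assume `G_POS`, `G_DC`.

PROOF. For `j < s` and `d ∈ lab D K j` the number of the leaves `v` with `ty v = j`, not `Del`, not
`BadMark d`, is at least `N_j (1 - 1/8 - 1/4) ≥ N_j/2 ≥ |lab D K j|`. The sets `lab D K j`, `j < s`,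
partition `D` (`full D (K 0) = ∅` because `D ≠ univ`, `full D (K s) = D`, `full D (K i)` increases). So one can
choose (greedily, label after label) an injective `φ : D → V` with `ty (φ d) = j`, `φ d` not `Del` and
not `BadMark d`, for `d ∈ lab D K j`. Put `x_d = pos (φ d)` and `F = ⋃_{d ∈ D} (x_d + (D \\ {d}))`.
(A) `x_d + d ∉ F`: if `x_d + d = x_{d'} + e`, `e ∈ D`, `e ≠ d'`, then `d' ≠ d` (otherwise `e = d`), so
`φ d' ≠ φ d` covers the mark of `φ d`, `BadMark`.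
(B) No `g` has `g + D ⊆ F`. Suppose it has. Claim: for every `i ≤ s - 1` there is `d₀ ∈ D` with
`v₀ = φ d₀`, `i ≤ ty v₀`, `pos v₀ - g ∈ K i`. `i = 0`: any `d₀` (`K 0 = ⊤`). Given `v₀` for `i < s`, let
`P` be the set of the `d ∈ D` with `|B i| < t hit(φ d)` (`hit` for `B i` and `g`), `v = φ d`.
(B1) For `d ∈ P`: `c i v = c i v₀`. Otherwise `1 ≤ i` (`c0`), and `Foreign i v` with `v' = v₀`:
`w = g - pos v` satisfies `|B i| ≤ t #{b ∈ B i : w + b ∈ D}` and `w - (pos v₀ - pos v) = g - pos v₀ ∈ K i`;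
so `v` is `Del`.
(B2) `P` is not empty: otherwise all `φ d` are unpopular, `t hit ≤ |B i|`. The ones which are not `Own`
(with respect to `v₀`) cover at most half of `g + B i` (not `LD`). If there is one which is `Own`, then
(`up`) all leaves `u` with `c i u = c i v₀` have `c (i+1) u = c (i+1) v₀`; let `v = φ d` be one of the
`Own` ones. Split `g + B i` into `K (i+1)`-cosets (`B i` is `K (i+1)`-periodic by `Bsat`). The cosets
contained in `pos v + D` have together at most `hit(v) ≤ |B i|/t` points; in every other coset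
`g + b + K (i+1)`, `NF D (K (i+1)) (g + b - pos v)`, so by `G_DC` the leaves `u` with
`c (i+1) u = c (i+1) v` (all the `Own` ones) cover at most `(∑_{l < s} ρ l) |K (i+1)|` points. So the
`Own` ones cover at most `(1/t + ∑ ρ l) |B i| < |B i|/2`. But all of `g + B i ⊆ g + D ⊆ F` is covered,
a contradiction.
(B3) Take `d ∈ P`, `v = φ d`; `c i v = c i v₀`, so `pos v - g ∈ K i` and `i ≤ ty v` (if `v ≠ v₀`, by
`single` for `v`: `ty v < i` would give `v₀ = v`). Let `w = g - pos v ∈ K i`. Then `w ∈ K (i+1)`: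
suppose not. The `b ∈ B i` with `w + b ∈ full D (K (i+1))` have `w + b ∈ B i` (`Bsat`). The `b ∈ B i` with
`w + b ∈ D \\ full D (K (i+1))`: in every `K (i+1)`-coset of `B i` at most `f (i+1)`, and
`f (i+1) ≤ ρ (i+1) |K (i+1)|` if `i + 1 < s`, `f s = 0`; together `≤ |B i|/(2t)` (`2 t ρ (i+1) ≤ 1`). So
`r_{B i}(w) ≥ hit(v) - |B i|/(2t) ≥ |B i|/(2t)`, and `g + full D (K (i+1)) ⊆ F`, so `v` is spoiled at the
level `i ≤ ty v`, so `Del`.
(B4) If `ty v = i`: `d ∈ lab D K i`, `d ∈ full D (K (i+1))`, and `pos v + d = g + (d - w)` with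
`d - w ∈ D` (`w ∈ K (i+1)`), so `x_d + d ∈ g + D ⊆ F`, in contradiction to (A). So `i + 1 ≤ ty v < s`,
and `v` proves the claim for `i + 1`. For `i = s - 1` this is a contradiction.
(C) By (A) and (B): `W = G \\ F`. `W + (-D) = G`: for every `g` there is `e ∈ D` with `g + e ∉ F`,
`g = (g + e) + (-e)`. Minimality: if `C' ⊂ -D` misses `-d`, then `x_d = (x_d + e) + (-e)` with
`x_d + e ∈ W`, `e ∈ D` forces `e = d`, so `x_d ∉ W + C'`. -/
def G_DET : Prop := ∀ (G : Type) [AddCommGroup G] [Fintype G] (s : ℕ) (V : Type) [Fintype V]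
  (D : Finset G) (K : ℕ → AddSubgroup G) (f : ℕ → ℕ) (B : ℕ → Finset G) (ρ ρh : ℕ → ℝ) (t L2 : ℝ)
  (c : ℕ → V → V) (ty : V → ℕ) (m : ℕ) (ω : Fin s × V → G), Chain D s K f B ρ ρh t L2 →
  Forest s V c ty f (fun i => Nat.card (K i)) ρ m (fun j => (lab D K j).card) →
  (∀ i, 0 < ρ i) → 8 ≤ t → ∑ i ∈ range s, ρ i ≤ 1 / 8 → (∀ i < s, 2 * t * ρ i ≤ 1) →
  D.Nonempty → D ≠ univ → 1 ≤ s → Good D K B t c ty f (fun i => Nat.card (K i)) ρ ω →
  IsMC {x : G | -x ∈ D}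

/-- **TREE** (existence of the forest), arithmetic.

PROOF. For `j < s` define `h j j = ⌊ρ j N j/f j⌋ ≥ 1` (`h 0 0 = 1`) and downwards for `1 ≤ i < j`:
`h j i = ⌊x/h j (i+1)⌋ h j (i+1)` if `x := ρ i N i/f i ≥ 2 h j (i+1)`, and `h j i = h j (i+1)`
otherwise. So for `1 ≤ i ≤ j`: `h j (i+1)` divides `h j i`; either `h j i ≤ x` or `h j i = h j (i+1)`
(`i < j`); and `x ≤ 2 h j i` (first case: `⌊y⌋ ≥ y/2` for `y ≥ 1`). `h j 1 ≤ N 1` for `j ≥ 1` (the largest
`i` with `h j i = h j 1` has `h j i ≤ ρ i N i/f i ≤ N i ≤ N 1`, as `ρ i ≤ 1 ≤ f i`); put `h 0 1 = 1`,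
and `h j 1 ≤ N 1` for all `j`. Let `R j = 8 m + ⌈2 lam j/h j 1⌉` and `n j = R j · h j 1`; so
`8 m h j 1 ≤ n j`, `2 lam j ≤ n j`, `n j ≤ (8m + 1) N 1 + 2 lam j`. Let `V = Σ j : Fin s, Fin (n j)`,
`ty (j, x) = j`, and `c l (j, x) = (j, (x / h j l) * h j l)` for `1 ≤ l ≤ j`, `c l (j, x) = (j, x)` for
`l > j`, `c 0` constant. For `1 ≤ l ≤ j` the classes of `c l` have exactly `h j l` elements (`h j l`
divides `h j 1` and `n j`). `ref`: `h j (l+1)` divides `h j l`. `up` for `i = 0`: the hypothesis on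
`|V| f 0`; for `1 ≤ i ≤ j`: above (for `i = j` the first alternative); for `i > j`: the second
alternative. `low`: above. `many`: class of `c 1` has `h j 1` elements (one element if `j = 0`). -/
def G_TREE : Prop := ∀ (s m : ℕ) (f N lam : ℕ → ℕ) (ρ : ℕ → ℝ), 1 ≤ s → 1 ≤ m →
  (∀ i < s, 1 ≤ f i) → (∀ i, 1 ≤ i → i < s → (f i : ℝ) ≤ ρ i * N i) → (∀ i, 0 < ρ i) →
  (∀ i < s, ρ i ≤ 1) → (∀ i < s, N (i + 1) ≤ N i) → 1 ≤ N 1 →
  ((s * (8 * m + 1) * N 1 + 2 * ∑ j ∈ range s, lam j : ℕ) : ℝ) * f 0 ≤ ρ 0 * N 0 →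
  ∃ (V : Type) (_ : Fintype V) (c : ℕ → V → V) (ty : V → ℕ), Forest s V c ty f N ρ m lam ∧
    Fintype.card V ≤ s * (8 * m + 1) * N 1 + 2 * ∑ j ∈ range s, lam j

/-- **CORE** May assume `G_CHAIN`, `G_TREE`, `G_GOOD`, `G_DET`.

PROOF. Here `r ≥ 100` (`Q^(100r²) ≤ n ≤ Q^(r³)`), `D ≠ univ`. Take `s`, `K`, `f`, `B` from `G_CHAIN`;
`ρ i = rhoC Q r i`, `ρh = rhohC Q r`, `t = Q`, `L2 = Q^(4r+7)`, `k = 4r`, `m = 2k = 8r`,
`N i = |K i|`, `lam j = |lab D K j|`, `∑_j lam j ≤ |D|` (disjoint subsets of `D`). For `i ≤ r + 1`: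
`ρ i ≤ Q^(-r²-10)`, because `(5r+20)(r+1) + r² + 10 ≤ 90 r²`; `σ = ∑_{i<s} ρ i ≤ s Q^(-r²-10)
≤ Q^(-r²-9)` (`s ≤ r + 2 ≤ Q`). `G_TREE`: `|V| ≤ (r+2)(64r+1)|K 1| + 2|D| ≤ Q² |D|` (`|K 1| ≤ |D|`, as
`B 0` contains a full `K 1`-coset; `(r+2)(64r+1) + 2 ≤ Q²`), so `|V| f 0 ≤ Q² |D|² ≤ Q^(-90r²) n = ρ 0 N 0`.
`G_GOOD`: `ρ (i+1) = Q^(5r+20) ρ i`, so `∑_{l ≤ i} ρ l ≤ 2 ρ i`;
`2 ∑_{l ≤ i} ρ l/ρh i ≤ 4 Q^(-3)`, `2 L2 ∑_{l<i} ρ l/ρ i ≤ 4 Q^(4r+7-5r-20) ≤ 4 Q^(-3)`;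
`η = 8 s Q^(-3)`, `8 s η ≤ 64 (r+2)² Q^(-3) < 1/3`. `|V| ≤ n`, `4 m σ = 32 r σ ≤ Q^(-r²-8)`,
`s |V| n (4mσ)^m ≤ Q · Q^(2r³) Q^(-(r²+8) 8r) < 1/3`. `256 σ ≤ Q^(-r²-8)`,
`s |D| 2 (256σ)^k ≤ 2 Q Q^(r³) Q^(-(r²+8) 4r) < 1/3`. `G_DET`: `2 t ρ i ≤ 2 Q Q^(-r²-10) ≤ 1`. -/
def G_CORE : Prop := ∀ (G : Type) [AddCommGroup G] [Fintype G] (D : Finset G) (Q r : ℕ),
  1 ≤ r → 1024 * (r + 1) ^ 2 ≤ Q → Fintype.card G ≤ 2 ^ Q → Fintype.card G ≤ Q ^ (r ^ 3) →
  D.Nonempty → NoPer D → D.card ^ 2 * Q ^ (100 * r ^ 2) ≤ Fintype.card G →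
  IsMC {x : G | -x ∈ D}

end Pool.Agent.Helper26.MCE
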