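import Pool.Agent.Helper26.MCE.GoalsB
import Pool.Agent.Helper49.MC.UpperHalf

/-!
Project MCE (MP_d8224a_co), block C: the end of the proof.
-/

namespace Pool.Agent.Helper26.MCE

open Finset Pool.Agent.Helper87.MC

/-- **LIFT** (preimages of minimal complements).

PROOF. Let `W' + C' = G/P` be minimal and `σ : G/P → G` a section (`Quotient.out`) of the projection `π`,
`W = σ '' W'`, `C = π⁻¹ C'`. `W + C = G`: for `g ∈ G`, `π g = w' + c'`, `g = σ w' + (g - σ w')` with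
`π (g - σ w') = c'`. Let `C₁ ⊂ C` be proper, `c ∈ C \ C₁`, `c' = π c`. As `C' \ {c'}` is a proper subset
there is `g' ∉ W' + (C' \ {c'})`; `g' = w' + c'` with `w' ∈ W'`. Let `g = σ w' + c`. If
`g = σ w₁' + c₁`, `w₁' ∈ W'`, `c₁ ∈ C₁`, then `g' = w₁' + π c₁`, so `π c₁ = c'`, `w₁' = w'`, `c₁ = c`, a
contradiction. So `g ∉ W + C₁`. -/
def G_LIFT : Prop := ∀ (G : Type) [AddCommGroup G] (P : AddSubgroup G) (C' : Set (G ⧸ P)),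
  IsMC C' → IsMC ((fun x : G => (x : G ⧸ P)) ⁻¹' C')

/-- **QUO** May assume `G_CORE`, `G_LIFT`.

PROOF. Let `P` be the subgroup of the periods of `D` (`h` with `x + h ∈ D ↔ x ∈ D` for all `x`),
`G' = G ⧸ P`, `D' = π(D)`. `D` is the preimage of `D'`, `|D| = |D'| |P|`, `|G| = |G'| |P|`. `NoPer D'`: if
`D'` is periodic for `Q'` then `D` is periodic for `π⁻¹ Q'`, so `π⁻¹ Q' ≤ P`, `Q' = ⊥`. The numerical
hypotheses hold for `G'`, `D'`: `|G'| ≤ |G|`, and `|D'|² Q^(100r²) |P|² ≤ |G'| |P|`, so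
`|D'|² Q^(100r²) ≤ |G'|`. `G_CORE` and `G_LIFT` (`{x | -x ∈ D}` is the preimage of
`{x' | -x' ∈ D'}`). -/
def G_QUO : Prop := ∀ (G : Type) [AddCommGroup G] [Fintype G] (D : Finset G) (Q r : ℕ),
  1 ≤ r → 1024 * (r + 1) ^ 2 ≤ Q → Fintype.card G ≤ 2 ^ Q → Fintype.card G ≤ Q ^ (r ^ 3) →
  D.Nonempty → D.card ^ 2 * Q ^ (100 * r ^ 2) ≤ Fintype.card G → IsMC {x : G | -x ∈ D}

/-- **NUM** (choice of the parameters).

PROOF. Let `L = log n > 1`. Let `Q = ⌈2^20 (1 + L)²⌉`, `r = ⌈(L/log Q)^(1/3)⌉ + 1`. Then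
`r ≤ L + 3`, `1024 (r+1)² ≤ Q`; `n = e^L ≤ 2^Q`; `Q^(r³) ≥ Q^(L/log Q) = n`. If `L ≥ log Q` then
`r ≤ 3 (L/log Q)^(1/3)`, `100 r² log Q ≤ 900 L^(2/3) (log Q)^(1/3)`, and `log Q ≤ C₁ log L` for
`L ≥ 3` (with some constant `C₁`), so `100 r² log Q ≤ 900 C₁ L^(2/3) (log L)^(1/3)`. So for these `n`
the claim holds if `2 C ≥ 900 C₁`. There are only finitely many other `n ≥ 3` (`L < log Q` or
`L < 3`), and for them `L^(2/3) (log L)^(1/3) > 0` (`n ≥ 3`, `L > 1`), so for `C` large the right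
side of the hypothesis is `< 1 ≤ k`. -/
def G_NUM : Prop := ∃ C : ℝ, 0 < C ∧ ∀ n k : ℕ, 3 ≤ n → 1 ≤ k →
  (k : ℝ) ≤ Real.sqrt n * Real.exp (-C * Real.log n ^ ((2 : ℝ) / 3) *
    Real.log (Real.log n) ^ ((1 : ℝ) / 3)) →
  ∃ Q r : ℕ, 1 ≤ r ∧ 1024 * (r + 1) ^ 2 ≤ Q ∧ n ≤ 2 ^ Q ∧ n ≤ Q ^ (r ^ 3) ∧
    k ^ 2 * Q ^ (100 * r ^ 2) ≤ n

end Pool.Agent.Helper26.MCE
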