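import Pool.Agent.Helper26.MCE.GoalsB

/-!
Project MCE (MP_d8224a_co): packet TUP.
-/

namespace Pool.Agent.Helper26.MCE

open Finset

open Classical in
theorem goalTUP : G_TUP := by
  intro α V B R W t m ht
  induction m with
  | zero =>
    intro _ _ _
    rw [pow_zero, Nat.one_le_cast]
    apply Finset.card_pos.mpr
    refine ⟨fun a => a.elim0, ?_⟩
    simp only [mem_filter, Fintype.mem_piFinset]
    exact ⟨fun a => a.elim0, fun a => a.elim0, fun a => a.elim0⟩
  | succ m ih =>
    intro hm hW hcov
    have hm' : 4 * (m : ℝ) ≤ t := by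
      push_cast at hm
      linarith
    have IH := ih hm' hW hcov
    set X := ((Fintype.piFinset fun _ : Fin m => B).filter fun b =>
      ∃ v : Fin m → V, ∀ a, W (v a) ∧ R (v a) (b a) ∧ ∀ a' < a, ¬ R (v a') (b a)) with hX
    -- the extension sets
    let E : (Fin m → α) → Finset α := fun b => B.filter fun b' =>
      (∃ v : Fin m → V, (∀ a, W (v a) ∧ R (v a) (b a) ∧ ∀ a' < a, ¬ R (v a') (b a)) ∧
        ∃ v', W v' ∧ R v' b' ∧ ∀ a, ¬ R (v a) b')
    have hE : ∀ b ∈ X, (B.card : ℝ) / 4 ≤ (E b).card := by
      intro b hb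
      obtain ⟨v, hv⟩ := (mem_filter.mp hb).2
      set U := B.filter fun b' => ∃ v, W v ∧ R v b' with hU
      have hsub : U ⊆ E b ∪ (univ : Finset (Fin m)).biUnion fun a => B.filter fun b' => R (v a) b' := by
        intro b' hb'
        obtain ⟨h1, v', h2, h3⟩ := mem_filter.mp hb'
        by_cases hc : ∀ a, ¬ R (v a) b'
        · exact mem_union_left _ (mem_filter.mpr ⟨h1, v, hv, v', h2, h3, hc⟩)
        · push Not at hc
          obtain ⟨a, ha⟩ := hc
          exact mem_union_right _ (mem_biUnion.mpr ⟨a, mem_univ _, mem_filter.mpr ⟨h1, ha⟩⟩)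
      have h1 : (U.card : ℝ) ≤ (E b).card + ∑ a : Fin m, ((B.filter fun b' => R (v a) b').card : ℝ) := by
        have h2 : U.card ≤ (E b).card + ∑ a : Fin m, (B.filter fun b' => R (v a) b').card := by
          refine (card_le_card hsub).trans ((card_union_le _ _).trans ?_)
          exact Nat.add_le_add_left card_biUnion_le _
        exact_mod_cast h2
      have h3 : ∑ a : Fin m, ((B.filter fun b' => R (v a) b').card : ℝ) ≤ (B.card : ℝ) / 4 := by
        have h4 : ∀ a : Fin m, ((B.filter fun b' => R (v a) b').card : ℝ) ≤ (B.card : ℝ) / t := by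
          intro a
          rw [le_div_iff₀ ht, mul_comm]
          exact hW _ (hv a).1
        calc ∑ a : Fin m, ((B.filter fun b' => R (v a) b').card : ℝ)
            ≤ ∑ _a : Fin m, (B.card : ℝ) / t := sum_le_sum fun a _ => h4 a
          _ = m * ((B.card : ℝ) / t) := by simp
          _ ≤ (B.card : ℝ) / 4 := by
            rw [← mul_div_assoc, div_le_div_iff₀ ht (by norm_num)]
            have : (0 : ℝ) ≤ B.card := Nat.cast_nonneg _
            nlinarith
      have h5 : (B.card : ℝ) < 2 * U.card := by exact_mod_cast hcov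
      linarith
    -- the injection
    have hinj : (X.sigma E).card ≤ ((Fintype.piFinset fun _ : Fin (m + 1) => B).filter fun b =>
        ∃ v : Fin (m + 1) → V, ∀ a, W (v a) ∧ R (v a) (b a) ∧ ∀ a' < a, ¬ R (v a') (b a)).card := by
      refine card_le_card_of_injOn (fun p => (Fin.snoc p.1 p.2 : Fin (m + 1) → α)) ?_ ?_
      · rintro ⟨b, b'⟩ hp
        obtain ⟨hb, hb'⟩ := mem_sigma.mp hp
        simp only at hb hb'
        obtain ⟨hb1, -⟩ := mem_filter.mp hb
        obtain ⟨hb2, v, hv, v', h2, h3, h4⟩ := mem_filter.mp hb'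
        refine mem_coe.mpr (mem_filter.mpr ⟨?_, Fin.snoc v v', ?_⟩)
        · rw [Fintype.mem_piFinset] at hb1 ⊢
          intro a
          refine Fin.lastCases ?_ (fun i => ?_) a
          · simpa using hb2
          · simpa using hb1 i
        · intro a
          refine Fin.lastCases ?_ (fun i => ?_) a
          · refine ⟨by simpa using h2, by simpa using h3, ?_⟩
            intro a' ha'
            have : ∃ j : Fin m, a' = j.castSucc := ⟨a'.castPred ha'.ne, by simp⟩
            obtain ⟨j, rfl⟩ := this
            simpa using h4 j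
          · refine ⟨by simpa using (hv i).1, by simpa using (hv i).2.1, ?_⟩
            intro a' ha'
            have hne : a' ≠ Fin.last m := (ha'.trans (Fin.castSucc_lt_last i)).ne
            have : ∃ j : Fin m, a' = j.castSucc := ⟨a'.castPred hne, by simp⟩
            obtain ⟨j, rfl⟩ := this
            have hj : j < i := by simpa using ha'
            simpa using (hv i).2.2 j hj
      · rintro ⟨b, b'⟩ _ ⟨c, c'⟩ _ h
        simp only at h
        have h1 : b = c := by
          funext i
          have := congrFun h i.castSucc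
          simpa using this
        have h2 : b' = c' := by
          have := congrFun h (Fin.last m)
          simpa using this
        rw [h1, h2]
    have h6 : (X.card : ℝ) * ((B.card : ℝ) / 4) ≤ ((X.sigma E).card : ℝ) := by
      rw [card_sigma]
      push_cast
      calc (X.card : ℝ) * ((B.card : ℝ) / 4) = ∑ _b ∈ X, (B.card : ℝ) / 4 := by simp
        _ ≤ ∑ b ∈ X, ((E b).card : ℝ) := sum_le_sum hE
    have h7 : (0 : ℝ) ≤ (B.card : ℝ) / 4 := by positivity
    calc ((B.card : ℝ) / 4) ^ (m + 1) = ((B.card : ℝ) / 4) ^ m * ((B.card : ℝ) / 4) := pow_succ _ _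
      _ ≤ (X.card : ℝ) * ((B.card : ℝ) / 4) := mul_le_mul_of_nonneg_right IH h7
      _ ≤ ((X.sigma E).card : ℝ) := h6
      _ ≤ _ := by exact_mod_cast hinj

end Pool.Agent.Helper26.MCE
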