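import Pool.Agent.Helper26.MCE.Final
import Pool.Agent.Helper26.MCE.TUP
import Pool.Agent.Helper15.MCE.LA
import Pool.Agent.Helper24.MCE.CL
import Pool.Agent.Helper69.MCE.HV
import Pool.Agent.Helper13.MCE.SUC
import Pool.Agent.Helper3.MCE.CNT
import Pool.Agent.Helper83.MCE.STEP
import Pool.Agent.Helper48.MCE.CHAIN
import Pool.Agent.Helper22.MCE.RES
import Pool.Agent.Helper90.MCE.POS
import Pool.Agent.Helper27.MCE.ONE
import Pool.Agent.Helper18.MCE.DC
import Pool.Agent.Helper86.MCE.NS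
import Pool.Agent.Helper54.MCE.SPB
import Pool.Agent.Helper70.MCE.FOR
import Pool.Agent.Helper16.MCE.LDS
import Pool.Agent.Helper83.MCE.LDB
import Pool.Agent.Helper56.MCE.MB
import Pool.Agent.Helper27.MCE.MF
import Pool.Agent.Helper51.MCE.MT
import Pool.Agent.Helper60.MCE.MK
import Pool.Agent.Helper99.MCE.GOOD
import Pool.Agent.Helper33.MCE.DET
import Pool.Agent.Helper58.MCE.TREE
import Pool.Agent.Helper74.MCE.CORE
import Pool.Agent.Helper50.MCE.LIFT
import Pool.Agent.Helper96.MCE.QUO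
import Pool.Agent.Helper88.MCE.NUM

/-!
Minimal complements in finite abelian groups: all sets of size at most
`√n exp(-C (log n)^(2/3) (log log n)^(1/3))` are minimal complements, in every finite abelian group of
order `n`; together with the upper bound of `UpperHalf` this gives `T(G) = |G|^(1/2 + o(1))` and
`T(n) = n^(1/2 + o(1))`.
-/

namespace Pool.Agent.Results.MP_d8224a_co.LowerHalf

open Pointwise

/-- `C` is a minimal complement in `G`: for some `W ⊆ G` one has `W + C = G`, and `W + C' ≠ G` for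
every proper subset `C'` of `C`. -/
def IsMinimalComplement {G : Type} [AddCommGroup G] (C : Set G) : Prop :=
  ∃ W : Set G, W + C = Set.univ ∧ ∀ C' : Set G, C' ⊂ C → W + C' ≠ Set.univ

/-- The largest `t ≤ |G|` such that every nonempty subset of `G` with at most `t` elements is a
minimal complement in `G`. -/
noncomputable def T (G : Type) [AddCommGroup G] [Fintype G] : ℕ :=
  sSup {t : ℕ | t ≤ Fintype.card G ∧
    ∀ C : Set G, C.Nonempty → C.ncard ≤ t → IsMinimalComplement C}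

/-- The minimum of `T(G)` over the abelian groups `G` of order `n`. -/
noncomputable def Tn (n : ℕ) : ℕ :=
  sInf {t : ℕ | ∃ (G : Type) (_ : AddCommGroup G) (_ : Fintype G), Fintype.card G = n ∧ T G = t}

/-- `√n exp(-C (log n)^(2/3) (log log n)^(1/3))`. -/
noncomputable def low (C : ℝ) (n : ℕ) : ℝ :=
  Real.sqrt n * Real.exp (-C * Real.log n ^ ((2 : ℝ) / 3) *
    Real.log (Real.log n) ^ ((1 : ℝ) / 3))

open Pool.Agent.Helper26.MCE in
lemma all_goals : G_QUO ∧ G_NUM := by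
  have hLA := Helper15.MCE.goalLA
  have hCL := Helper24.MCE.goalCL hLA
  have hHV := Helper69.MCE.goalHV hLA hCL
  have hSUC := Helper13.MCE.goalSUC hHV
  have hSTEP := Helper83.MCE.goalSTEP hSUC Helper3.MCE.goalCNT
  have hCHAIN := Helper48.MCE.goalCHAIN hSTEP
  have hRES := Helper22.MCE.goalRES
  have hPOS := Helper90.MCE.goalPOS
  have hONE := Helper27.MCE.goalONE hRES hPOS
  have hDC := Helper18.MCE.goalDC hPOS
  have hSPB := Helper54.MCE.goalSPB hPOS hONE hDC Helper86.MCE.goalNS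
  have hFOR := Helper70.MCE.goalFOR hRES hPOS
  have hLDS := Helper16.MCE.goalLDS hPOS hONE
  have hLDB := Helper83.MCE.goalLDB hLDS Helper26.MCE.goalTUP
  have hMB := Helper56.MCE.goalMB hPOS hONE
  have hMF := Helper27.MCE.goalMF hPOS hONE
  have hMK := Helper60.MCE.goalMK hMB hMF Helper51.MCE.goalMT
  have hGOOD := Helper99.MCE.goalGOOD hSPB hFOR hLDB hMK
  have hDET := Helper33.MCE.goalDET hPOS hDC
  have hCORE := Helper74.MCE.goalCORE hCHAIN Helper58.MCE.goalTREE hGOOD hDET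
  exact ⟨Helper96.MCE.goalQUO hCORE Helper50.MCE.goalLIFT, Helper88.MCE.goalNUM⟩

/-- (1), (2): for a constant `C`, every nonempty subset of size at most
`√n exp(-C (log n)^(2/3) (log log n)^(1/3))` of a finite abelian group of order `n ≥ 3` is a minimal
complement, and `T(G)` is at least this number. (3) `|G|^(1/2 - ε) ≤ T(G) ≤ |G|^(1/2 + ε)` for all
finite abelian groups `G` with `|G| ≥ N(ε)`. (4) The same for `T(n)`. -/
theorem result :
    (∃ C : ℝ, 0 < C ∧ (∀ (G : Type) [AddCommGroup G] [Fintype G] (S : Set G),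
        3 ≤ Fintype.card G → S.Nonempty → (S.ncard : ℝ) ≤ low C (Fintype.card G) →
        IsMinimalComplement S) ∧
      ∀ (G : Type) [AddCommGroup G] [Fintype G], 3 ≤ Fintype.card G →
        low C (Fintype.card G) ≤ T G) ∧
    (∀ ε : ℝ, 0 < ε → ∃ N : ℕ, ∀ (G : Type) [AddCommGroup G] [Fintype G],
      N ≤ Fintype.card G → (Fintype.card G : ℝ) ^ (1 / 2 - ε) ≤ T G ∧
        (T G : ℝ) ≤ (Fintype.card G : ℝ) ^ (1 / 2 + ε)) ∧
    (∀ ε : ℝ, 0 < ε → ∃ N : ℕ, ∀ n : ℕ, N ≤ n →
      (n : ℝ) ^ (1 / 2 - ε) ≤ Tn n ∧ (Tn n : ℝ) ≤ (n : ℝ) ^ (1 / 2 + ε)) := by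
  obtain ⟨hQ, hN⟩ := all_goals
  have hexp : ∀ ε : ℝ, 0 < ε → ∃ N : ℕ, ∀ (G : Type) [AddCommGroup G] [Fintype G],
      N ≤ Fintype.card G → (Fintype.card G : ℝ) ^ (1 / 2 - ε) ≤ T G ∧
        (T G : ℝ) ≤ (Fintype.card G : ℝ) ^ (1 / 2 + ε) := fun ε hε =>
    Helper26.MCE.exponent (Helper26.MCE.lower_TT hQ hN)
      Pool.Agent.Results.MP_d8224a_co.UpperHalf.result ε hε
  refine ⟨?_, hexp, ?_⟩
  · obtain ⟨C₁, hC₁, h₁⟩ := Helper26.MCE.small_isMC hQ hN
    obtain ⟨C₂, hC₂, h₂⟩ := Helper26.MCE.lower_TT hQ hN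
    have hmono : ∀ C C' : ℝ, C ≤ C' → ∀ n : ℕ, 3 ≤ n → low C' n ≤ low C n := by
      intro C C' hCC n hn
      obtain ⟨c, hc, hcn⟩ := Helper26.MCE.c_pos
      have h := hc.trans_le (hcn n hn)
      rw [low, low]
      refine mul_le_mul_of_nonneg_left (Real.exp_le_exp.mpr ?_) (Real.sqrt_nonneg _)
      rw [mul_assoc, mul_assoc]
      nlinarith
    refine ⟨max C₁ C₂, lt_max_of_lt_left hC₁, ?_, ?_⟩
    · intro G _ _ S h3 hne hS
      exact h₁ G S h3 hne (hS.trans (hmono _ _ (le_max_left _ _) _ h3))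
    · intro G _ _ h3
      exact (hmono _ _ (le_max_right C₁ C₂) _ h3).trans (h₂ G h3)
  · intro ε hε
    obtain ⟨N, hN'⟩ := hexp ε hε
    refine ⟨max N 1, fun n hn => ?_⟩
    have hne : {t : ℕ | ∃ (G : Type) (_ : AddCommGroup G) (_ : Fintype G),
        Fintype.card G = n ∧ T G = t}.Nonempty := by
      have h1 : 1 ≤ n := (le_max_right _ _).trans hn
      have : NeZero n := ⟨by omega⟩
      exact ⟨_, ZMod n, inferInstance, inferInstance, ZMod.card n, rfl⟩
    obtain ⟨G, i1, i2, hG, hT⟩ := Nat.sInf_mem hne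
    have h2 := hN' G (by rw [hG]; exact (le_max_left _ _).trans hn)
    rw [hG] at h2
    have h3 : Tn n = T G := hT.symm
    rw [h3]
    exact h2

end Pool.Agent.Results.MP_d8224a_co.LowerHalf
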